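import Pool.Agent.MP_67f0e4_gt.AT.Spec

/-! Block A3: assembly of the atlas from the rows. -/

set_option autoImplicit false

open scoped ContDiff Topology
open Set Metric Filter

namespace Pool.Agent.MP_67f0e4_gt.AT

open K EU

noncomputable section

theorem aff_zero (l₁ l₂ : ℝ) (q : V) : aff l₁ l₂ q 0 = q := by simp [aff]

theorem AA.ch_zero (B : AA) (c : B.C) (q : V) : B.ch c q 0 = B.Ψ c q := by
  rw [AA.ch, aff_zero]

theorem swap_swap (p : C3) : swap (swap p) = p := rfl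

theorem HT.mono {r r' : ℝ} {Φ Φ' : V → C3} {y y' : V} (h : HT r Φ Φ' y y') (hr : r' ≤ r) :
    HT r' Φ Φ' y y' := by
  obtain ⟨T, h1, h2, h3⟩ := h
  exact ⟨T, h1.mono (ball_subset_ball hr), h2, fun z hz => h3 z (ball_subset_ball hr hz)⟩

theorem HT.map {r : ℝ} {Φ Φ' : V → C3} {y y' : V} (h : HT r Φ Φ' y y') (g : C3 → C3) :
    HT r (fun z => g (Φ z)) (fun z => g (Φ' z)) y y' := by
  obtain ⟨T, h1, h2, h3⟩ := h
  exact ⟨T, h1, h2, fun z hz => ⟨(h3 z hz).1, by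
    show g (Φ' (T z)) = g (Φ z)
    rw [(h3 z hz).2]⟩⟩

theorem ht_of_dg {Φ Φ' : V → C3} {y y' : V} {d : ℝ} {γ : ℂ} {n : ℕ} (hn : 1 ≤ n) (h0 : 0 < d)
    (h2 : d ≤ 2) (hγ : γ ^ n = 1) (h : ∀ u : V, Φ' (y' + dg d 1 γ u) = Φ (y + u)) :
    HT (1 / 2) Φ Φ' y y' := by
  have hg : ‖γ‖ = 1 := Complex.norm_eq_one_of_pow_eq_one hγ (by omega)
  refine ⟨fun z => y' + dg d 1 γ (z - y), ?_, by simp [dg], fun z hz => ⟨?_, ?_⟩⟩
  · unfold dg
    fun_prop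
  · rw [mem_ball, dist_eq_norm] at hz
    have h1 := norm_fst_le (z - y)
    have h3 := norm_snd_le (z - y)
    rw [add_sub_cancel_left, dg, Prod.norm_def]
    refine max_le ?_ ?_
    · dsimp only
      rw [norm_mul, Complex.norm_real, Real.norm_of_nonneg h0.le]
      nlinarith [norm_nonneg (z - y).1]
    · dsimp only
      rw [norm_mul, norm_mul, hg]
      simp only [Complex.ofReal_one, norm_one, one_mul]
      linarith
  · rw [h, add_sub_cancel]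

theorem AA.Ok.bound {B : AA} {X : Set C3} (h : B.Ok X) (W : ℝ) : ∃ R : ℝ, ∀ c, ∀ q ∈ B.Q c,
    q.1.re ≤ W → ∀ y ∈ closedBall (0 : V) 1, ‖B.ch c q y‖ ≤ R := by
  have key : ∀ c, ∃ R : ℝ, ∀ q ∈ B.Q c, q.1.re ≤ W → ∀ y ∈ closedBall (0 : V) 1,
      ‖B.ch c q y‖ ≤ R := by
    intro c
    have hc : Continuous fun x : V × V => aff (B.l₁ c x.1) (B.l₂ c x.1) x.1 x.2 := by
      have h1 := h.c₁ c
      have h2 := h.c₂ c
      unfold aff
      fun_prop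
    have hK := (h.cpt c W).prod (isCompact_closedBall (0 : V) 1)
    obtain ⟨R, hR⟩ := hK.exists_bound_of_continuousOn
      (f := fun x : V × V => B.ch c x.1 x.2)
      ((h.par c).hol.continuousOn.comp hc.continuousOn fun x hx =>
        h.into c _ hx.1.1 _ (closedBall_subset_closedBall one_le_two hx.2))
    exact ⟨R, fun q hq hW y hy => hR (q, y) ⟨⟨hq, hW⟩, hy⟩⟩
  choose R hR using key
  obtain ⟨R₀, hR₀⟩ := (Set.finite_range R).bddAbove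
  exact ⟨R₀, fun c q hq hW y hy => (hR c q hq hW y hy).trans (hR₀ ⟨c, rfl⟩)⟩

variable {n : ℕ} {a : Fin n → ℂ} {σ ε : ℝ} {ζ : Fin n → ℂ → ℂ} {W Ξ : ℝ}

theorem far_type (hσ : σ ≤ 1) {c : Ty n} {q : V} (hq : q ∈ (atl a σ ζ W Ξ).Q c)
    (h : 1 < q.1.re) : ‖q.2‖ ≤ Ξ ∧ ((c = .inl false ∧ (atl a σ ζ W Ξ).ch c q = cch a q) ∨
      (c = .inl true ∧ (atl a σ ζ W Ξ).ch c q = fun y => swap (cch a q y))) := by
  rcases c with (_ | _) | j
  · exact ⟨hq.2.2, Or.inl ⟨rfl, rfl⟩⟩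
  · exact ⟨hq.2.2, Or.inr ⟨rfl, rfl⟩⟩
  · exfalso
    have h1 : ‖q‖ ≤ σ := mem_closedBall_zero_iff.mp hq
    have h2 := (Complex.re_le_norm q.1).trans (norm_fst_le q)
    linarith

theorem all_ht (hHTC : SHTC) (hXX : SXX) (hXY : SXY) (hn : 1 ≤ n) (hσ : σ ≤ 1)
    (hS : Surf2 (Xs a)) (hB : (atl a σ ζ W Ξ).Ok (Xs a)) : ∃ r : ℝ, 0 < r ∧
    ∀ c c', ∀ q ∈ (atl a σ ζ W Ξ).Q c, ∀ q' ∈ (atl a σ ζ W Ξ).Q c',
      ∀ y ∈ closedBall (0 : V) 1, ∀ y' ∈ closedBall (0 : V) 1,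
        (atl a σ ζ W Ξ).ch c q y = (atl a σ ζ W Ξ).ch c' q' y' →
        HT r ((atl a σ ζ W Ξ).ch c q) ((atl a σ ζ W Ξ).ch c' q') y y' := by
  obtain ⟨W₀, r₁, hr₁, h1⟩ := hXY n a Ξ hn
  obtain ⟨R, hR⟩ := hB.bound (max W₀ 1)
  obtain ⟨W₁, hW₁⟩ := hB.prop R
  obtain ⟨r₂, hr₂, h2⟩ := hHTC _ _ hS hB (max (max W₀ 1) W₁)
  refine ⟨min (min r₁ r₂) (1 / 2), by positivity, fun c c' q hq q' hq' y hy y' hy' he => ?_⟩
  have m1 : min (min r₁ r₂) (1 / 2) ≤ r₁ := (min_le_left _ _).trans (min_le_left _ _)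
  have m2 : min (min r₁ r₂) (1 / 2) ≤ r₂ := (min_le_left _ _).trans (min_le_right _ _)
  have m3 : min (min r₁ r₂) (1 / 2) ≤ 1 / 2 := min_le_right _ _
  by_cases ha : q.1.re ≤ max W₀ 1
  · have hb := hW₁ c' q' hq' y' hy' (he ▸ hR c q hq ha y hy)
    exact (h2 c c' q hq q' hq' (ha.trans (le_max_left _ _)) (hb.trans (le_max_right _ _))
      y hy y' hy' he).mono m2
  by_cases hb : q'.1.re ≤ max W₀ 1
  · have hc := hW₁ c q hq y hy (he ▸ hR c' q' hq' hb y' hy')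
    exact (h2 c c' q hq q' hq' (hc.trans (le_max_right _ _)) (hb.trans (le_max_left _ _))
      y hy y' hy' he).mono m2
  rw [not_le, max_lt_iff] at ha hb
  obtain ⟨x1, e1⟩ := far_type hσ hq ha.2
  obtain ⟨x2, e2⟩ := far_type hσ hq' hb.2
  rcases e1 with ⟨-, e1⟩ | ⟨-, e1⟩ <;> rcases e2 with ⟨-, e2⟩ | ⟨-, e2⟩ <;> rw [e1, e2] at he ⊢
  · obtain ⟨d, γ, g1, g2, g3, g4⟩ := hXX n a hn q q' y hy y' hy' he
    exact (ht_of_dg hn g1 g2 g3 g4).mono m3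
  · exact (h1 q q' ha.1.le hb.1.le x1 x2 y hy y' hy' he).mono m1
  · exact ((h1 q q' ha.1.le hb.1.le x1 x2 y hy y' hy' (congrArg swap he)).map swap).mono m1
  · obtain ⟨d, γ, g1, g2, g3, g4⟩ := hXX n a hn q q' y hy y' hy' (congrArg swap he)
    exact ((ht_of_dg hn g1 g2 g3 g4).map swap).mono m3

theorem same_type (hXX : SXX) (hn : 1 ≤ n) (c : Ty n) (q q' : V) {y y' : V}
    (hy : y ∈ closedBall (0 : V) 1) (hy' : y' ∈ closedBall (0 : V) 1)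
    (he : (atl a σ ζ W Ξ).ch c q y = (atl a σ ζ W Ξ).ch c q' y') :
    ∃ (d : ℝ) (γ : ℂ), 0 < d ∧ γ ^ n = 1 ∧ ∀ u : V,
      (atl a σ ζ W Ξ).ch c q' (y' + dg d 1 γ u) = (atl a σ ζ W Ξ).ch c q (y + u) := by
  rcases c with (_ | _) | j
  · obtain ⟨d, γ, g1, -, g3, g4⟩ := hXX n a hn q q' y hy y' hy' he
    exact ⟨d, γ, g1, g3, g4⟩
  · obtain ⟨d, γ, g1, -, g3, g4⟩ := hXX n a hn q q' y hy y' hy' (congrArg swap he)
    exact ⟨d, γ, g1, g3, fun u => congrArg swap (g4 u)⟩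
  · refine ⟨1, 1, one_pos, one_pow _, fun u => ?_⟩
    have e1 : q.1 + σ * y.1 = q'.1 + σ * y'.1 := congrArg (fun p : C3 => p.1) he
    have e2 : q.2 + σ * y.2 = q'.2 + σ * y'.2 := congrArg (fun p : C3 => p.2.1) he
    have e3 : aff σ σ q' (y' + dg 1 1 1 u) = aff σ σ q (y + u) := by
      refine Prod.ext ?_ ?_
      · simp only [aff, dg, Prod.fst_add, Complex.ofReal_one, one_mul]
        linear_combination -e1
      · simp only [aff, dg, Prod.snd_add, Complex.ofReal_one, one_mul]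
        linear_combination -e2
    exact congrArg ((atl a σ ζ W Ξ).Ψ (.inr j)) e3

theorem atlas_of (hPAR : SPAR) (hCPT : SCPT) (hHTC : SHTC) (hZ : SZETA) (hSURF : SSURF)
    (hOK : SOK) (hCEN : SCEN) (hXX : SXX) (hXY : SXY) (hTH : STH) (hFAR : SFAR) (hCAU : StmtCAU)
    (hNEAR : SNEAR) : SATL := by
  intro n a hn ha
  obtain ⟨σ, ε, ζ, hζ⟩ := hZ n a hn ha
  obtain ⟨W, Ξ, hcen⟩ := hCEN n a σ ε ζ hn hζ
  have hS := hSURF n a σ ε ζ hζ
  have hB := hOK n a σ ε ζ W Ξ hn hζ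
  obtain ⟨t1, t2, t3⟩ := hTH n a σ ε ζ hn hζ
  obtain ⟨r, hr, hht⟩ := all_ht hHTC hXX hXY hn hζ.σ_le hS hB
  let F : Fam (Xs a) :=
    { ι := {x : Ty n × V // x.2 ∈ (atl a σ ζ W Ξ).Q x.1}
      Φ := fun i => (atl a σ ζ W Ξ).ch i.1.1 i.1.2
      par := fun i => hPAR _ _ hB _ _ i.2
      sur := fun p hp => by
        obtain ⟨c, hc⟩ : ∃ c, th a σ ε c p ≠ 0 := by
          by_contra h
          have h1 := t3 p hp
          rw [Finset.sum_eq_zero fun c _ => by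
            rw [not_not.mp fun h2 => h ⟨c, h2⟩, zero_pow two_ne_zero]] at h1
          exact zero_ne_one h1
        obtain ⟨q, h1, h2⟩ := (hcen c).2 p hp (t2 c p hc)
        exact ⟨⟨(c, q), h1⟩, (AA.ch_zero _ _ _).trans h2⟩ }
  have b1 : ∀ {y : V}, y ∈ ball (0 : V) 1 → y ∈ ball (0 : V) 2 := fun h =>
    ball_subset_ball one_le_two h
  refine ⟨Ξ, F, ⟨Ty n, n, fun i => i.1.1, th a σ ε, r⟩, ?_,
    hCPT _ (atl a σ ζ W Ξ) F (fun i => i.1.1) (fun i => i.1.2) hB ⟨fun i => i.2, fun _ => rfl⟩,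
    ⟨hn, hr, t3, ?_, ?_, ?_⟩⟩
  · have hQ : ∀ c, ∀ q ∈ (atl a σ ζ W Ξ).Q c, q ∈ (atl a σ ζ W Ξ).U c := fun c q hq => by
      have := hB.into c q hq 0 (mem_closedBall_self zero_le_two)
      rwa [aff_zero] at this
    refine ⟨⋃ c, (atl a σ ζ W Ξ).Ψ c '' {q ∈ (atl a σ ζ W Ξ).Q c | q.1.re ≤ 1},
      isCompact_iUnion fun c => (hB.cpt c 1).image_of_continuousOn
        ((hB.par c).hol.continuousOn.mono fun q hq => hQ c q hq.1), ?_, fun i => ?_⟩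
    · rintro p hp
      obtain ⟨c, q, h1, rfl⟩ := mem_iUnion.mp hp
      exact (hB.par c).mem (hQ c q h1.1)
    · by_cases h : i.1.2.1.re ≤ 1
      · exact Or.inl (mem_iUnion.mpr ⟨i.1.1, i.1.2, ⟨i.2, h⟩, (AA.ch_zero _ _ _).symm⟩)
      · rw [not_le] at h
        obtain ⟨x1, e1⟩ := far_type hζ.σ_le i.2 h
        refine Or.inr ⟨i.1.2.1, i.1.2.2, h.le, x1, ?_⟩
        have hc : ∀ y : V, cch a i.1.2 y = cov a (i.1.2.1 + ((1 / 8 * i.1.2.1.re : ℝ) : ℂ) * y.1,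
            i.1.2.2 + ((1 / 8 : ℝ) : ℂ) * y.2) := fun y => by
          rw [cch, max_eq_right h.le, aff]
        rcases e1 with ⟨-, e1⟩ | ⟨-, e1⟩
        · exact Or.inl fun y => (congrFun e1 y).trans (hc y)
        · exact Or.inr fun y => (congrFun e1 y).trans (congrArg swap (hc y))
  · intro c
    have hN := hNEAR _ _ (th a σ ε c) 1 hB (t1 c)
    obtain ⟨hF1, hF2⟩ := hFAR hCAU n a σ ε Ξ hn hζ.σ_pos hζ.σ_le c
    have key : ∀ i : F.ι, (∃ x : {x : Ty n × V // x.2 ∈ (atl a σ ζ W Ξ).Q x.1 ∧ x.2.1.re ≤ 1},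
        F.Φ i = (atl a σ ζ W Ξ).ch x.1.1 x.1.2) ∨
        (∃ q : {q : V // 1 ≤ q.1.re ∧ ‖q.2‖ ≤ Ξ}, F.Φ i = cch a q.1) ∨
        ∃ q : {q : V // 1 ≤ q.1.re ∧ ‖q.2‖ ≤ Ξ}, F.Φ i = fun y => swap (cch a q.1 y) := by
      intro i
      by_cases h : i.1.2.1.re ≤ 1
      · exact Or.inl ⟨⟨i.1, i.2, h⟩, rfl⟩
      · rw [not_le] at h
        obtain ⟨x1, ⟨-, e1⟩ | ⟨-, e1⟩⟩ := far_type hζ.σ_le i.2 h
        · exact Or.inr (Or.inl ⟨⟨i.1.2, h.le, x1⟩, e1⟩)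
        · exact Or.inr (Or.inr ⟨⟨i.1.2, h.le, x1⟩, e1⟩)
    refine ⟨fun i => ?_, fun m => ?_⟩
    · rcases key i with ⟨x, e⟩ | ⟨x, e⟩ | ⟨x, e⟩ <;> dsimp only <;> rw [e]
      exacts [hN.1 x, hF1.1 x, hF2.1 x]
    · obtain ⟨C1, h1⟩ := hN.2 m
      obtain ⟨C2, h2⟩ := hF1.2 m
      obtain ⟨C3, h3⟩ := hF2.2 m
      refine ⟨max C1 (max C2 C3), fun i y hy => ?_⟩
      rcases key i with ⟨x, e⟩ | ⟨x, e⟩ | ⟨x, e⟩ <;> dsimp only <;> rw [e]
      · exact (h1 x y hy).trans (le_max_left _ _)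
      · exact (h2 x y hy).trans ((le_max_left _ _).trans (le_max_right _ _))
      · exact (h3 x y hy).trans ((le_max_right _ _).trans (le_max_right _ _))
  · rintro ⟨⟨c, q⟩, hq⟩ ⟨⟨c', q'⟩, hq'⟩ (rfl : c = c') y hy y' hy' he
    have b2 : ball (0 : V) (1 / 4) ⊆ closedBall 0 1 :=
      (ball_subset_ball (by norm_num)).trans ball_subset_closedBall
    obtain ⟨d, γ, g1, g2, g3⟩ := same_type hXX hn c q q' (b2 hy) (b2 hy') he
    exact ⟨d, 1, γ, g1, one_pos, g2, fun u _ _ => g3 u⟩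
  · intro i y₀ hy₀ c hc
    have hp := F.par i
    have hcont : ContinuousAt (F.Φ i) y₀ :=
      hp.hol.continuousOn.continuousAt (isOpen_ball.mem_nhds (b1 hy₀))
    have hZ' : F.Φ i y₀ ∈ Zs a σ ε c :=
      (hcen c).1.mem_of_frequently_of_tendsto (hc.mono fun y hy => t2 c _ hy) hcont
    obtain ⟨q, h1, h2⟩ := (hcen c).2 _ (hp.mem (b1 hy₀)) hZ'
    have he : F.Φ i y₀ = (atl a σ ζ W Ξ).ch c q 0 := ((AA.ch_zero _ _ _).trans h2).symm
    have z1 : (0 : V) ∈ closedBall (0 : V) 1 := mem_closedBall_self zero_le_one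
    obtain ⟨T, T1, T2, T3⟩ := hht _ _ _ i.2 q h1 y₀ (ball_subset_closedBall hy₀) 0 z1 he
    obtain ⟨S, S1, S2, S3⟩ := hht _ _ q h1 _ i.2 0 z1 y₀ (ball_subset_closedBall hy₀) he.symm
    refine ⟨⟨(c, q), h1⟩, T, S, rfl, T2, T1, S1, fun y hy => ⟨?_, (T3 y hy).2⟩,
      fun w hw => ⟨?_, (S3 w hw).2⟩, ?_⟩
    · have := (T3 y hy).1
      rw [sub_zero] at this
      linarith
    · have h3 := (S3 w hw).1
      have h4 := mem_ball_zero_iff.mp hy₀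
      have h5 := norm_add_le (S w - y₀) y₀
      rw [sub_add_cancel] at h5
      linarith
    · obtain ⟨R, -, R1, -⟩ := hS.surf.2 _ _ hp y₀ (b1 hy₀)
      have cT : Tendsto T (𝓝 y₀) (𝓝 0) := by
        have := T1.continuousOn.continuousAt (ball_mem_nhds y₀ hr)
        rwa [ContinuousAt, T2] at this
      have cS : Tendsto S (𝓝 0) (𝓝 y₀) := by
        have := S1.continuousOn.continuousAt (ball_mem_nhds 0 hr)
        rwa [ContinuousAt, S2] at this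
      filter_upwards [R1, (cS.comp cT).eventually R1, ball_mem_nhds y₀ hr,
        cT.eventually (ball_mem_nhds 0 hr)] with y g1 g2 g3 g4
      have g5 : F.Φ i (S (T y)) = F.Φ i y := ((S3 _ g4).2).trans (T3 y g3).2
      exact (g2.symm.trans (congrArg R g5)).trans g1

end

end Pool.Agent.MP_67f0e4_gt.AT
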