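import Pool.Agent.MP_67f0e4_gt.AT.Spec

/-! Row CEN: every point of the support sets is the centre of a chart. -/

set_option autoImplicit false

open scoped ContDiff Topology
open Set Metric Filter

namespace Pool.Agent.MP_67f0e4_gt.AT

open K EU

theorem cen_z {n : ℕ} (a : Fin n → ℂ) (hn : 1 ≤ n) {z : ℂ} {t : ℝ} (ht : 0 < t)
    (h : ‖Pz a z‖ ≤ 2 * t ^ n) : ‖z‖ ≤ ∑ j, ‖a j‖ + 2 * t := by
  by_contra hc
  rw [not_le] at hc
  have : Nonempty (Fin n) := ⟨⟨0, hn⟩⟩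
  have h1 : ∏ _j : Fin n, 2 * t < ∏ j, ‖z - a j‖ := by
    refine Finset.prod_lt_prod_of_nonempty (fun _ _ => by positivity) (fun j _ => ?_)
      Finset.univ_nonempty
    have h2 : ‖a j‖ ≤ ∑ j, ‖a j‖ :=
      Finset.single_le_sum (f := fun j => ‖a j‖) (fun _ _ => norm_nonneg _) (Finset.mem_univ j)
    linarith [norm_sub_norm_le z (a j)]
  rw [Finset.prod_const, Finset.card_univ, Fintype.card_fin, mul_pow, ← norm_prod] at h1
  have h3 : (2 : ℝ) ≤ 2 ^ n := le_self_pow₀ one_le_two (by omega)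
  have h4 : 0 < t ^ n := pow_pos ht n
  have h5 : ‖Pz a z‖ = ‖∏ j, (z - a j)‖ := rfl
  nlinarith

theorem cen_cov {n : ℕ} (a : Fin n → ℂ) (hn : 1 ≤ n) {σ : ℝ} (h0 : 0 < σ) (h1 : σ ≤ 1)
    {x y z : ℂ} (hp : x * y = Pz a z) (hx : σ ^ 2 / 16 ≤ ‖x‖ ^ 2) (hy : ‖y‖ ^ 2 ≤ 3 * ‖x‖ ^ 2) :
    ∃ q : V, (-(-Real.log (σ / 4)) ≤ q.1.re ∧ |q.1.im| ≤ 4 ∧
      ‖q.2‖ ≤ 2 + (∑ j, ‖a j‖) * Real.exp (2 * -Real.log (σ / 4))) ∧ cov a q = (x, y, z) := by
  have hn' : (1 : ℝ) ≤ n := by exact_mod_cast hn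
  have hnc : (n : ℂ) ≠ 0 := by exact_mod_cast (by omega : n ≠ 0)
  have h2 : σ / 4 ≤ ‖x‖ := by
    refine (sq_le_sq₀ (by positivity) (norm_nonneg _)).1 ?_
    nlinarith
  have h3 : 0 < ‖x‖ := by linarith
  have hx0 : x ≠ 0 := norm_pos_iff.1 h3
  have h4 : ‖y‖ ≤ 2 * ‖x‖ := by
    by_contra hc
    nlinarith [not_le.1 hc]
  obtain ⟨w, hw⟩ : ∃ w : ℂ, w = Complex.log x / n := ⟨_, rfl⟩
  have hre : w.re = Real.log ‖x‖ / n := by rw [hw, Complex.div_natCast_re, Complex.log_re]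
  have him : w.im = Complex.arg x / n := by rw [hw, Complex.div_natCast_im, Complex.log_im]
  have he : Complex.exp (n * w) = x := by
    rw [hw, mul_div_cancel₀ _ hnc, Complex.exp_log hx0]
  have h5 : Real.log (σ / 4) ≤ w.re := by
    have a1 := Real.log_le_log (by positivity) h2
    have a2 : Real.log (σ / 4) ≤ 0 := Real.log_nonpos (by positivity) (by linarith)
    rw [hre, le_div_iff₀ (by linarith)]
    nlinarith
  have h6 : Real.exp (2 * w.re) ^ n = ‖x‖ ^ 2 := by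
    rw [← Real.exp_nat_mul, hre, show (n : ℝ) * (2 * (Real.log ‖x‖ / n)) =
      (2 : ℕ) * Real.log ‖x‖ by push_cast; field_simp, Real.exp_nat_mul, Real.exp_log h3]
  have h7 := cen_z a hn (z := z) (Real.exp_pos (2 * w.re)) (by
    rw [h6, ← hp, norm_mul]
    nlinarith)
  have hz : z * Complex.exp (-(2 * w)) * Complex.exp (2 * w) = z := by
    rw [mul_assoc, ← Complex.exp_add, neg_add_cancel, Complex.exp_zero, mul_one]
  refine ⟨(w, z * Complex.exp (-(2 * w))), ⟨by rwa [neg_neg], ?_, ?_⟩, ?_⟩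
  · change |w.im| ≤ 4
    rw [him, abs_div, Nat.abs_cast, div_le_iff₀ (by linarith)]
    linarith [Complex.abs_arg_le_pi x, Real.pi_le_four]
  · change ‖z * Complex.exp (-(2 * w))‖ ≤ _
    have a1 : (-(2 * w)).re = -(2 * w.re) := by simp
    have a2 : Real.exp (-(2 * w.re)) ≤ Real.exp (2 * -Real.log (σ / 4)) :=
      Real.exp_le_exp.2 (by linarith)
    have a3 : Real.exp (2 * w.re) * Real.exp (-(2 * w.re)) = 1 := by
      rw [← Real.exp_add, add_neg_cancel, Real.exp_zero]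
    have a4 : 0 ≤ ∑ j, ‖a j‖ := Finset.sum_nonneg fun _ _ => norm_nonneg _
    have a5 := mul_le_mul_of_nonneg_right h7 (Real.exp_pos (-(2 * w.re))).le
    have a6 := mul_le_mul_of_nonneg_left a2 a4
    rw [norm_mul, Complex.norm_exp, a1]
    nlinarith
  · simp only [cov, hz, Complex.exp_neg (n * w), he, ← hp]
    rw [mul_comm x y, mul_inv_cancel_right₀ hx0]

theorem cen_cl {f g h k : C3 → ℝ} (hf : Continuous f) (hg : Continuous g) (hh : Continuous h)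
    (hk : Continuous k) : IsClosed {p | f p ≤ g p ∧ h p ≤ k p} :=
  (isClosed_le hf hg).inter (isClosed_le hh hk)

theorem cen : SCEN := by
  intro n a σ ε ζ hn hZ
  refine ⟨-Real.log (σ / 4), 2 + (∑ j, ‖a j‖) * Real.exp (2 * -Real.log (σ / 4)), ?_⟩
  rintro ((_ | _) | j)
  · refine ⟨cen_cl (by fun_prop) (by fun_prop) (by fun_prop) (by fun_prop), fun p hp h => ?_⟩
    exact cen_cov a hn hZ.σ_pos hZ.σ_le hp h.1 h.2
  · refine ⟨cen_cl (by fun_prop) (by fun_prop) (by fun_prop) (by fun_prop), fun p hp h => ?_⟩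
    obtain ⟨q, h1, h2⟩ := cen_cov a hn hZ.σ_pos hZ.σ_le ((mul_comm _ _).trans hp) h.1 h.2
    exact ⟨q, h1, congrArg swap h2⟩
  · refine ⟨cen_cl (by fun_prop) (by fun_prop) (by fun_prop) (by fun_prop),
      fun p hp h => ⟨(p.1, p.2.1), ?_, ?_⟩⟩
    · have h1 : ‖p.1‖ ^ 2 + ‖p.2.1‖ ^ 2 ≤ σ ^ 2 := h.1
      have h2 := hZ.σ_pos
      change (p.1, p.2.1) ∈ closedBall (0 : V) σ
      rw [mem_closedBall_zero_iff, Prod.norm_mk, max_le_iff]
      constructor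
      · exact (sq_le_sq₀ (norm_nonneg _) h2.le).1 (by nlinarith [sq_nonneg ‖p.2.1‖])
      · exact (sq_le_sq₀ (norm_nonneg _) h2.le).1 (by nlinarith [sq_nonneg ‖p.1‖])
    · have h1 : p.1 * p.2.1 = Pz a p.2.2 := hp
      change (p.1, p.2.1, ζ j (p.1 * p.2.1)) = p
      rw [h1, hZ.left j _ h.2]

end Pool.Agent.MP_67f0e4_gt.AT
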