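import Pool.Agent.MP_67f0e4_gt.AT.Spec
import Pool.Agent.MP_67f0e4_gt.K.Chain

/-! Charts centred in a compact set form a compact family. -/

set_option autoImplicit false

open scoped ContDiff Topology
open Set Metric Filter

namespace Pool.Agent.MP_67f0e4_gt.AT

open K EU

section par

variable {E : Type} [NormedAddCommGroup E] [NormedSpace ℝ E] {S : Set ℝ} {O : Set (E × V)}
  {g : ℝ → E → V → ℝ}

theorem cpt_D (hS : UniqueDiffOn ℝ S) (hO : IsOpen O)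
    (hg : ContDiffOn ℝ ∞ (fun w : ℝ × E × V => g w.1 w.2.1 w.2.2) (S ×ˢ O)) (v : V) :
    ContDiffOn ℝ ∞ (fun w : ℝ × E × V => D v (g w.1 w.2.1) w.2.2) (S ×ˢ O) := by
  have hu : UniqueDiffOn ℝ (S ×ˢ O) := hS.prod hO.uniqueDiffOn
  have h1 := (hg.fderivWithin hu (m := ∞) (by exact_mod_cast le_top)).clm_apply
    (contDiffOn_const (c := ((0 : ℝ), (0 : E), v)))
  refine h1.congr fun w hw => ?_
  have h2 := (hg.differentiableOn (by simp) w hw).hasFDerivWithinAt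
  have h3 : HasFDerivAt (fun y : V => (w.1, w.2.1, y))
      ((0 : V →L[ℝ] ℝ).prod ((0 : V →L[ℝ] E).prod (ContinuousLinearMap.id ℝ V))) w.2.2 :=
    (hasFDerivAt_const _ _).prodMk ((hasFDerivAt_const _ _).prodMk (hasFDerivAt_id _))
  have h4 : ∀ᶠ y in 𝓝 w.2.2, (w.1, w.2.1, y) ∈ S ×ˢ O := by
    have h5 : IsOpen ((fun y : V => (w.2.1, y)) ⁻¹' O) :=
      hO.preimage (continuous_const.prodMk continuous_id)
    exact Filter.mem_of_superset (h5.mem_nhds hw.2) fun y hy => ⟨hw.1, hy⟩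
  exact D_of_has (HasFDerivWithinAt.comp_hasFDerivAt (f := fun y : V => (w.1, w.2.1, y)) w.2.2
    h2 h3 h4) v

theorem cpt_DL (hS : UniqueDiffOn ℝ S) (hO : IsOpen O)
    (hg : ContDiffOn ℝ ∞ (fun w : ℝ × E × V => g w.1 w.2.1 w.2.2) (S ×ˢ O)) (l : List (Fin 4)) :
    ContDiffOn ℝ ∞ (fun w : ℝ × E × V => DL l (g w.1 w.2.1) w.2.2) (S ×ˢ O) := by
  induction l with
  | nil => exact hg
  | cons i l ih => exact cpt_D (g := fun t p => DL l (g t p)) hS hO ih _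

theorem cpt_lv (hS : UniqueDiffOn ℝ S) (hO : IsOpen O)
    (hg : ContDiffOn ℝ ∞ (fun w : ℝ × E × V => g w.1 w.2.1 w.2.2) (S ×ˢ O)) :
    ContinuousOn (fun w : ℝ × E × V => lv (g w.1 w.2.1) w.2.2) (S ×ˢ O) := by
  have h : ∀ u v : V, ContinuousOn (fun w : ℝ × E × V => lev (g w.1 w.2.1) w.2.2 u v) (S ×ˢ O) :=
    fun u v => ((cpt_D (g := fun t p => D v (g t p)) hS hO (cpt_D hS hO hg v) u).add
      (cpt_D (g := fun t p => D (Complex.I • v) (g t p)) hS hO (cpt_D hS hO hg _) _)).continuousOn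
  refine continuousOn_pi.2 fun α => ?_
  fin_cases α <;> exact h _ _

end par

theorem cpt_qf : Continuous fun w : Hm × V => qf w.1 w.2 := by
  unfold qf bf
  fun_prop

theorem cpt_ell {Z : Type} [TopologicalSpace Z] {A : Set Z} (hA : IsCompact A) {g : Z → Hm}
    (hg : ContinuousOn g A) (hp : ∀ z ∈ A, Pos (g z)) : ∃ Λ, ∀ z ∈ A, EllH Λ (g z) := by
  obtain ⟨b, hb⟩ := hA.exists_bound_of_continuousOn hg
  have h1 : ContinuousOn (fun w : Z × V => qf (g w.1) w.2) (A ×ˢ sphere 0 1) :=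
    cpt_qf.comp_continuousOn ((hg.comp continuousOn_fst fun _ h => h.1).prodMk continuousOn_snd)
  obtain ⟨m, hm, h2⟩ := (hA.prod (isCompact_sphere (0 : V) 1)).exists_forall_le' h1 (a := 0)
    fun w hw => hp _ hw.1 _ (ne_zero_of_mem_sphere one_ne_zero ⟨w.2, hw.2⟩)
  refine ⟨max m⁻¹ (6 * b), fun z hz => ⟨lt_max_of_lt_left (inv_pos.2 hm), fun v => ⟨?_, ?_⟩⟩⟩
  · by_cases hv : v = 0
    · rw [hv, qf_zero_vec]
      simp
    have h3 : 0 < ‖v‖ := norm_pos_iff.2 hv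
    have h4 := h2 (z, ‖v‖⁻¹ • v) ⟨hz, by
      rw [mem_sphere_zero_iff_norm, norm_smul, norm_inv, norm_norm, inv_mul_cancel₀ h3.ne']⟩
    simp only [qf_rsmul] at h4
    rw [inv_pow, ← div_eq_inv_mul, le_div_iff₀ (by positivity)] at h4
    calc ‖v‖ ^ 2 = m⁻¹ * (m * ‖v‖ ^ 2) := by rw [inv_mul_cancel_left₀ hm.ne']
      _ ≤ m⁻¹ * qf (g z) v := mul_le_mul_of_nonneg_left h4 (inv_pos.2 hm).le
      _ ≤ _ := mul_le_mul_of_nonneg_right (le_max_left _ _) (hp z hz v hv).le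
  · refine ((le_abs_self _).trans (abs_qf_le _ _)).trans
      (mul_le_mul_of_nonneg_right ?_ (sq_nonneg _))
    exact le_max_of_le_right (by linarith [hb z hz])

theorem cpt_aff : ContDiff ℝ ∞ fun w : (ℝ × ℝ × V) × V => aff w.1.1 w.1.2.1 w.1.2.2 w.2 := by
  have h1 : ContDiff ℝ ∞ fun w : (ℝ × ℝ × V) × V => ((w.1.1 : ℝ) : ℂ) :=
    Complex.ofRealCLM.contDiff.comp (contDiff_fst.comp contDiff_fst)
  have h2 : ContDiff ℝ ∞ fun w : (ℝ × ℝ × V) × V => ((w.1.2.1 : ℝ) : ℂ) :=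
    Complex.ofRealCLM.contDiff.comp contDiff_fst.snd.fst
  exact (contDiff_fst.snd.snd.fst.add (h1.mul contDiff_snd.fst)).prodMk
    (contDiff_fst.snd.snd.snd.add (h2.mul contDiff_snd.snd))

theorem cpt_pos {h : V → ℝ} {l₁ l₂ : ℝ} (h1 : 0 < l₁) (h2 : 0 < l₂) {q y : V}
    (hh : ContDiffAt ℝ 2 h (aff l₁ l₂ q y)) (hp : Pos (lv h (aff l₁ l₂ q y))) :
    Pos (lv (fun y => h (aff l₁ l₂ q y)) y) := by
  let A : V →L[ℂ] V := ((l₁ : ℂ) • ContinuousLinearMap.fst ℂ ℂ ℂ).prod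
    ((l₂ : ℂ) • ContinuousLinearMap.snd ℂ ℂ ℂ)
  have h3 := lv_affine (f := h) (x := y) A q hh
  intro v hv
  have h4 : lv (fun y => h (aff l₁ l₂ q y)) y = pb A (lv h (aff l₁ l₂ q y)) := h3
  rw [h4, qf_pb]
  refine hp _ fun h0 => hv (Prod.ext ?_ ?_)
  · have h5 : (l₁ : ℂ) * v.1 = 0 := congrArg Prod.fst h0
    exact (mul_eq_zero.1 h5).resolve_left (by exact_mod_cast h1.ne')
  · have h5 : (l₂ : ℂ) * v.2 = 0 := congrArg Prod.snd h0
    exact (mul_eq_zero.1 h5).resolve_left (by exact_mod_cast h2.ne')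

theorem cpt : SCPT := by
  intro X B F ty ce hB hF K t0 t1 f hK _ ht hf
  obtain ⟨R, hR⟩ := hK.exists_bound_of_continuousOn (f := id) continuousOn_id
  obtain ⟨W, hW⟩ := hB.prop R
  have hS : UniqueDiffOn ℝ (Icc t0 t1) := uniqueDiffOn_Icc ht
  let O : B.C → Set ((ℝ × ℝ × V) × V) := fun c =>
    (fun w => aff w.1.1 w.1.2.1 w.1.2.2 w.2) ⁻¹' B.U c
  have hO : ∀ c, IsOpen (O c) := fun c => (hB.par c).op.preimage cpt_aff.continuous
  let g : B.C → ℝ → ℝ × ℝ × V → V → ℝ := fun c t p y => f t (B.Ψ c (aff p.1 p.2.1 p.2.2 y))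
  have hg : ∀ c, ContDiffOn ℝ ∞ (fun w : ℝ × (ℝ × ℝ × V) × V => g c w.1 w.2.1 w.2.2)
      (Icc t0 t1 ×ˢ O c) := fun c =>
    ContDiffOn.comp (hf _ _ (hB.par c))
      (f := fun w : ℝ × (ℝ × ℝ × V) × V => (w.1, aff w.2.1.1 w.2.1.2.1 w.2.1.2.2 w.2.2))
      (contDiff_fst.prodMk (cpt_aff.comp contDiff_snd)).contDiffOn fun _ hw => ⟨hw.1, hw.2⟩
  let Z : B.C → Set (ℝ × V × V) := fun c =>
    Icc t0 t1 ×ˢ {q ∈ B.Q c | q.1.re ≤ W} ×ˢ closedBall 0 2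
  have hZ : ∀ c, IsCompact (Z c) := fun c =>
    isCompact_Icc.prod ((hB.cpt c W).prod (isCompact_closedBall _ _))
  let φ : B.C → ℝ × V × V → ℝ × (ℝ × ℝ × V) × V := fun c z =>
    (z.1, (B.l₁ c z.2.1, B.l₂ c z.2.1, z.2.1), z.2.2)
  have hφ : ∀ c, Continuous (φ c) := fun c =>
    continuous_fst.prodMk ((((hB.c₁ c).comp continuous_snd.fst).prodMk
      (((hB.c₂ c).comp continuous_snd.fst).prodMk continuous_snd.fst)).prodMk continuous_snd.snd)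
  have hm : ∀ c, MapsTo (φ c) (Z c) (Icc t0 t1 ×ˢ O c) := fun c z hz =>
    ⟨hz.1, hB.into c _ hz.2.1.1 _ hz.2.2⟩
  have hin : ∀ i, F.Φ i 0 ∈ K → ∀ t ∈ Icc t0 t1, ∀ x ∈ ball (0 : V) (3 / 2),
      (t, ce i, x) ∈ Z (ty i) := fun i hi t h1 x h2 =>
    ⟨h1, ⟨hF.mem i, hW _ _ (hF.mem i) 0 (mem_closedBall_self zero_le_one)
      (by rw [← hF.eq i]; exact hR _ hi)⟩,
      closedBall_subset_closedBall (by norm_num) (ball_subset_closedBall h2)⟩
  refine ⟨fun l => ?_, fun hp => ?_⟩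
  · choose M hM using fun c => (hZ c).exists_bound_of_continuousOn
      ((cpt_DL hS (hO c) (hg c) l).continuousOn.comp (hφ c).continuousOn (hm c))
    obtain ⟨M0, hM0⟩ := Finite.exists_le M
    refine ⟨M0, fun i hi t h1 x h2 => ?_⟩
    rw [hF.eq i]
    exact (hM _ _ (hin i hi t h1 x h2)).trans (hM0 _)
  · choose Λ hΛ using fun c => cpt_ell (hZ c)
      ((cpt_lv hS (hO c) (hg c)).comp (hφ c).continuousOn (hm c)) fun z hz =>
        cpt_pos (h := f z.1 ∘ B.Ψ c) (hB.p₁ c _) (hB.p₂ c _)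
          (((ContDiffOn.comp (hf _ _ (hB.par c)) (f := fun y : V => (z.1, y))
            (contDiff_const.prodMk contDiff_id).contDiffOn fun _ hy => ⟨hz.1, hy⟩).contDiffAt
            ((hB.par c).op.mem_nhds (hm c hz).2)).of_le two_le_inf)
          (hp _ hz.1 _ _ (hB.par c) _ (hm c hz).2)
    obtain ⟨Λ0, hΛ0⟩ := Finite.exists_le Λ
    refine ⟨Λ0, fun i hi t h1 x h2 => ?_⟩
    rw [hF.eq i]
    exact (hΛ _ _ (hin i hi t h1 x h2)).mono (hΛ0 _)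

end Pool.Agent.MP_67f0e4_gt.AT
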