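import Pool.Agent.MP_67f0e4_gt.AT.Spec

/-! Row FAR: bounds for the partition of unity in the charts far out. -/

set_option autoImplicit false

open scoped ContDiff Topology
open Set Metric Filter

namespace Pool.Agent.MP_67f0e4_gt.AT

open K EU

noncomputable section

theorem far_up (c : ℕ → ℝ) (n : ℕ) : ∃ B : ℝ, 1 ≤ B ∧ ∀ i ≤ n, c i ≤ B :=
  ⟨1 + ∑ i ∈ Finset.range (n + 1), |c i|,
    le_add_of_nonneg_right (Finset.sum_nonneg fun _ _ => abs_nonneg _), fun i hi =>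
    (le_abs_self _).trans ((Finset.single_le_sum (f := fun i => |c i|) (fun _ _ => abs_nonneg _)
      (Finset.mem_range.2 (Nat.lt_succ_of_le hi))).trans (le_add_of_nonneg_left zero_le_one))⟩

theorem far_comp {κ : Type} {O : Set V} (hO : IsOpen O) {T : κ → V → V} {R : ℝ}
    (hT : Bd (fun _ => O) T) (hR : ∀ x, ∀ y ∈ O, ‖T x y‖ ≤ R) {g : V → ℝ} (hg : ContDiff ℝ ∞ g)
    {F : κ → V → ℝ} (hF : ∀ x, ∀ y ∈ O, F x y = g (T x y)) : Bd (fun _ => O) F := by
  refine ⟨fun x => (hg.comp_contDiffOn (hT.1 x)).congr (hF x), fun n => ?_⟩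
  choose c hc using hT.2
  obtain ⟨B, B1, hB⟩ := far_up c n
  have h0 : ∀ i : ℕ, ∃ C : ℝ, ∀ v ∈ closedBall (0 : V) R, ‖iteratedFDeriv ℝ i g v‖ ≤ C := fun i =>
    (isCompact_closedBall (0 : V) R).exists_bound_of_continuousOn
      (hg.continuous_iteratedFDeriv (by exact_mod_cast le_top)).continuousOn
  choose d hd using h0
  obtain ⟨A, -, hA⟩ := far_up d n
  refine ⟨n.factorial * A * B ^ n, fun x y hy => ?_⟩
  have h3 := norm_iteratedFDerivWithin_comp_le (n := n) (hg.contDiffOn (s := univ)) (hT.1 x)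
    (by exact_mod_cast le_top) uniqueDiffOn_univ hO.uniqueDiffOn (mapsTo_univ _ _) hy (C := A)
    (D := B) (fun i hi => by
      rw [iteratedFDerivWithin_univ]
      exact (hd i _ (mem_closedBall_zero_iff.2 (hR x y hy))).trans (hA i hi)) fun i h hi => by
      rw [iteratedFDerivWithin_of_isOpen i hO hy]
      exact (hc i x y hy).trans ((hB i hi).trans (le_self_pow₀ B1 (Nat.one_le_iff_ne_zero.1 h)))
  rw [iteratedFDerivWithin_of_isOpen _ hO hy] at h3
  have h4 : F x =ᶠ[𝓝 y] g ∘ T x := by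
    filter_upwards [hO.mem_nhds hy] with w hw using hF x w hw
  rw [(h4.iteratedFDeriv ℝ n).self_of_nhds]
  exact h3

variable {n : ℕ}

/-- the ratio of the two coordinates -/
def far_G (a : Fin n → ℂ) (p : V) : ℂ := ∏ j, (p.2 - a j * Complex.exp (-(2 * p.1)))

theorem far_cov (a : Fin n → ℂ) (p : V) :
    (cov a p).2.1 = Complex.exp (n * p.1) * far_G a p := by
  have h1 : ∀ j, p.2 * Complex.exp (2 * p.1) - a j =
      Complex.exp (2 * p.1) * (p.2 - a j * Complex.exp (-(2 * p.1))) := fun j => by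
    rw [Complex.exp_neg]
    field_simp [Complex.exp_ne_zero]
  have h2 : Complex.exp (2 * p.1) ^ n * Complex.exp (-(n * p.1)) = Complex.exp (n * p.1) := by
    rw [← Complex.exp_nat_mul, ← Complex.exp_add]
    exact congrArg Complex.exp (by ring)
  show Pz a (p.2 * Complex.exp (2 * p.1)) * Complex.exp (-(n * p.1)) = _
  simp only [Pz, h1, Finset.prod_mul_distrib, Finset.prod_const, Finset.card_univ,
    Fintype.card_fin, far_G]
  rw [← h2]
  ring

theorem far_re {q y : V} (hq : 1 ≤ q.1.re) (hy : y ∈ ball (0 : V) 2) :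
    0 ≤ (aff (1 / 8 * max 1 q.1.re) (1 / 8) q y).1.re := by
  have h1 : |y.1.re| ≤ 2 :=
    (Complex.abs_re_le_norm _).trans ((norm_fst_le y).trans (mem_ball_zero_iff.1 hy).le)
  have h2 := (abs_le.1 h1).1
  rw [max_eq_right hq]
  simp only [aff, Complex.add_re, Complex.re_ofReal_mul]
  nlinarith

theorem far_bd (a : Fin n → ℂ) {Ξ : ℝ} {q y : V} (hq : 1 ≤ q.1.re) (hΞ : ‖q.2‖ ≤ Ξ)
    (hy : y ∈ ball (0 : V) 2) :
    ‖far_G a (aff (1 / 8 * max 1 q.1.re) (1 / 8) q y)‖ ≤ ∏ j, (Ξ + 1 + ‖a j‖) := by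
  have h1 := far_re hq hy
  have h2 : ‖(aff (1 / 8 * max 1 q.1.re) (1 / 8) q y).2‖ ≤ Ξ + 1 := by
    have h3 : ‖y.2‖ ≤ 2 := (norm_snd_le y).trans (mem_ball_zero_iff.1 hy).le
    refine (norm_add_le _ _).trans (add_le_add hΞ ?_)
    rw [norm_mul, Complex.norm_real, Real.norm_of_nonneg (by norm_num)]
    linarith
  rw [far_G, norm_prod]
  refine Finset.prod_le_prod (fun _ _ => norm_nonneg _) fun j _ =>
    (norm_sub_le _ _).trans (add_le_add h2 ?_)
  rw [norm_mul, Complex.norm_exp]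
  refine mul_le_of_le_one_right (norm_nonneg _) (Real.exp_le_one_iff.2 ?_)
  simp only [Complex.neg_re, Complex.mul_re, Complex.re_ofNat, Complex.im_ofNat]
  linarith

theorem far_key (hCAU : StmtCAU) (a : Fin n → ℂ) (Ξ : ℝ) {g : ℝ → ℝ} (hg : ContDiffOn ℝ ∞ g (Ioi 0))
    {F : {q : V // 1 ≤ q.1.re ∧ ‖q.2‖ ≤ Ξ} → V → ℝ} (hF : ∀ q, ∀ y ∈ ball (0 : V) 1,
      F q y = g (1 + ‖far_G a (aff (1 / 8 * max 1 q.1.1.re) (1 / 8) q.1 y)‖ ^ 2)) :
    Bd (fun _ => ball (0 : V) 1) F := by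
  have hb : ∀ (q : {q : V // 1 ≤ q.1.re ∧ ‖q.2‖ ≤ Ξ}), ∀ y ∈ ball (0 : V) 2,
      ‖((far_G a (aff (1 / 8 * max 1 q.1.1.re) (1 / 8) q.1 y), 0) : V)‖ ≤
        ∏ j, (Ξ + 1 + ‖a j‖) := fun q y hy => by
    rw [Prod.norm_def, norm_zero, max_eq_left (norm_nonneg _)]
    exact far_bd a q.2.1 q.2.2 hy
  have h1 := hCAU _ (fun _ => 0) 2 _ (fun (q : {q : V // 1 ≤ q.1.re ∧ ‖q.2‖ ≤ Ξ}) y =>
    ((far_G a (aff (1 / 8 * max 1 q.1.1.re) (1 / 8) q.1 y), 0) : V)) two_pos (fun q => by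
      refine (ContDiff.prodMk ?_ contDiff_const).contDiffOn
      simp only [far_G, aff]
      exact contDiff_prod fun j _ => by fun_prop) hb
  rw [div_self two_ne_zero] at h1
  refine far_comp isOpen_ball h1 (fun q y hy => hb q y (ball_subset_ball one_le_two hy))
    (g := fun v => g (1 + ‖v.1‖ ^ 2)) ?_ hF
  have h2 : ContDiff ℝ ∞ fun v : V => 1 + ‖v.1‖ ^ 2 :=
    contDiff_const.add ((contDiff_norm_sq ℝ).comp contDiff_fst)
  exact hg.comp_contDiff h2 fun v => by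
    show 0 < 1 + ‖v.1‖ ^ 2
    positivity

theorem far_ang {σ s : ℝ} (h0 : 0 < σ) (h1 : σ ≤ 1) (hs : 1 ≤ s) :
    ang (4 * s / (3 * σ ^ 2) - 1 / 3) = Real.pi / 2 := by
  have h2 : σ ^ 2 ≤ 1 := pow_le_one₀ h0.le h1
  rw [ang, Real.smoothTransition.one_of_one_le, mul_one]
  rw [le_sub_iff_add_le, le_div_iff₀ (by positivity)]
  linarith

theorem far_sm (c d : ℝ) : ContDiffOn ℝ ∞ (fun s : ℝ => ang (2 * (c + d * s⁻¹) - 1 / 2)) (Ioi 0) :=
  contDiffOn_const.mul (Real.smoothTransition.contDiff.comp_contDiffOn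
    ((contDiffOn_const.mul (contDiffOn_const.add (contDiffOn_const.mul
      (contDiffOn_id.inv fun _ h => ne_of_gt h)))).sub contDiffOn_const))

theorem far : SFAR := by
  intro hCAU n a σ ε Ξ _ h0 h1 c
  have H : ∀ (q : {q : V // 1 ≤ q.1.re ∧ ‖q.2‖ ≤ Ξ}), ∀ y ∈ ball (0 : V) 1, ∀ x z G : ℝ,
      x = ‖(cch a q.1 y).1‖ ^ 2 → z = ‖(cch a q.1 y).2.1‖ ^ 2 →
      G = ‖far_G a (aff (1 / 8 * max 1 q.1.1.re) (1 / 8) q.1 y)‖ ^ 2 →
      1 ≤ x + z ∧ 1 ≤ z + x ∧ z / (x + z) = 1 + -1 * (1 + G)⁻¹ ∧ x / (z + x) = 0 + 1 * (1 + G)⁻¹ := by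
    intro q y hy x z G hx hz hG
    have e1 : 1 ≤ x := by
      have h2 := far_re q.2.1 (ball_subset_ball one_le_two hy)
      rw [hx]
      refine one_le_pow₀ ?_
      show 1 ≤ ‖Complex.exp _‖
      rw [Complex.norm_exp]
      refine Real.one_le_exp ?_
      rw [Complex.mul_re, Complex.natCast_re, Complex.natCast_im, zero_mul, sub_zero]
      positivity
    have e2 : z = x * G := by
      rw [hz, hx, hG, cch, far_cov, norm_mul, mul_pow]
      rfl
    have e3 : 0 ≤ G := by rw [hG]; positivity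
    have e4 : 0 ≤ z := by rw [hz]; positivity
    have e5 : 0 < x := by linarith
    refine ⟨by linarith, by linarith, ?_, ?_⟩
    · rw [e2]; field_simp; ring
    · rw [e2]; field_simp; ring
  rcases c with (_ | _) | j
  · refine ⟨far_key hCAU a Ξ (Real.contDiff_cos.comp_contDiffOn (far_sm 1 (-1))) fun q y hy => ?_,
      far_key hCAU a Ξ (Real.contDiff_cos.comp_contDiffOn (far_sm 0 1)) fun q y hy => ?_⟩
    · obtain ⟨e1, -, e2, -⟩ := H q y hy _ _ _ rfl rfl rfl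
      simp only [th, far_ang h0 h1 e1, e2, Real.sin_pi_div_two, one_mul, Function.comp_apply]
    · obtain ⟨-, e1, -, e2⟩ := H q y hy _ _ _ rfl rfl rfl
      simp only [th, swap, far_ang h0 h1 e1, e2, Real.sin_pi_div_two, one_mul, Function.comp_apply]
  · refine ⟨far_key hCAU a Ξ (Real.contDiff_sin.comp_contDiffOn (far_sm 1 (-1))) fun q y hy => ?_,
      far_key hCAU a Ξ (Real.contDiff_sin.comp_contDiffOn (far_sm 0 1)) fun q y hy => ?_⟩
    · obtain ⟨e1, -, e2, -⟩ := H q y hy _ _ _ rfl rfl rfl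
      simp only [th, far_ang h0 h1 e1, e2, Real.sin_pi_div_two, one_mul, Function.comp_apply]
    · obtain ⟨-, e1, -, e2⟩ := H q y hy _ _ _ rfl rfl rfl
      simp only [th, swap, far_ang h0 h1 e1, e2, Real.sin_pi_div_two, one_mul, Function.comp_apply]
  · refine ⟨far_key hCAU a Ξ (g := fun _ => 0) contDiffOn_const fun q y hy => ?_,
      far_key hCAU a Ξ (g := fun _ => 0) contDiffOn_const fun q y hy => ?_⟩
    · obtain ⟨e1, -⟩ := H q y hy _ _ _ rfl rfl rfl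
      simp only [th, far_ang h0 h1 e1, Real.cos_pi_div_two, zero_mul]
    · obtain ⟨-, e1, -⟩ := H q y hy _ _ _ rfl rfl rfl
      simp only [th, swap, far_ang h0 h1 e1, Real.cos_pi_div_two, zero_mul]

end

end Pool.Agent.MP_67f0e4_gt.AT
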