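import Pool.Agent.MP_67f0e4_gt.AT.Spec

/-! Row HTC: uniform transitions between charts with centres of bounded height. -/

set_option autoImplicit false

open scoped ContDiff Topology
open Set Metric Filter

namespace Pool.Agent.MP_67f0e4_gt.AT

open K EU

noncomputable section

/-- the inverse of `aff` -/
def htc_inv (l₁ l₂ : ℝ) (q m : V) : V := ((m.1 - q.1) / l₁, (m.2 - q.2) / l₂)

theorem htc_aff_inv {l₁ l₂ : ℝ} (h₁ : 0 < l₁) (h₂ : 0 < l₂) (q m : V) :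
    aff l₁ l₂ q (htc_inv l₁ l₂ q m) = m := by
  have h₁' : (l₁ : ℂ) ≠ 0 := by exact_mod_cast h₁.ne'
  have h₂' : (l₂ : ℂ) ≠ 0 := by exact_mod_cast h₂.ne'
  refine Prod.ext ?_ ?_
  · simp only [aff, htc_inv]
    field_simp
    ring
  · simp only [aff, htc_inv]
    field_simp
    ring

theorem htc_inv_aff {l₁ l₂ : ℝ} (h₁ : 0 < l₁) (h₂ : 0 < l₂) (q y : V) :
    htc_inv l₁ l₂ q (aff l₁ l₂ q y) = y := by
  have h₁' : (l₁ : ℂ) ≠ 0 := by exact_mod_cast h₁.ne'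
  have h₂' : (l₂ : ℂ) ≠ 0 := by exact_mod_cast h₂.ne'
  refine Prod.ext ?_ ?_
  · simp only [aff, htc_inv]
    field_simp
    ring
  · simp only [aff, htc_inv]
    field_simp
    ring

theorem htc_aff_smooth (l₁ l₂ : ℝ) (q : V) : ContDiff ℂ ∞ (aff l₁ l₂ q) :=
  (contDiff_const.add (contDiff_const.mul contDiff_fst)).prodMk
    (contDiff_const.add (contDiff_const.mul contDiff_snd))

theorem htc_inv_smooth (l₁ l₂ : ℝ) (q : V) : ContDiff ℂ ∞ (htc_inv l₁ l₂ q) :=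
  ((contDiff_fst.sub contDiff_const).div_const _).prodMk
    ((contDiff_snd.sub contDiff_const).div_const _)

theorem htc_aff_cont {Z : Type} [TopologicalSpace Z] {l₁ l₂ : V → ℝ} (h₁ : Continuous l₁)
    (h₂ : Continuous l₂) {q y : Z → V} (hq : Continuous q) (hy : Continuous y) :
    Continuous fun z => aff (l₁ (q z)) (l₂ (q z)) (q z) (y z) :=
  (hq.fst.add ((Complex.continuous_ofReal.comp (h₁.comp hq)).mul hy.fst)).prodMk
    (hq.snd.add ((Complex.continuous_ofReal.comp (h₂.comp hq)).mul hy.snd))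

theorem htc_inv_cont {Z : Type} [TopologicalSpace Z] {l₁ l₂ : V → ℝ} (h₁ : Continuous l₁)
    (h₂ : Continuous l₂) (p₁ : ∀ q, 0 < l₁ q) (p₂ : ∀ q, 0 < l₂ q) {q m : Z → V} {z : Z}
    (hq : Continuous q) (hm : ContinuousAt m z) :
    ContinuousAt (fun z => htc_inv (l₁ (q z)) (l₂ (q z)) (q z) (m z)) z := by
  have h₁' : (l₁ (q z) : ℂ) ≠ 0 := by exact_mod_cast (p₁ _).ne'
  have h₂' : (l₂ (q z) : ℂ) ≠ 0 := by exact_mod_cast (p₂ _).ne'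
  exact ((hm.fst.sub hq.fst.continuousAt).div
    (Complex.continuous_ofReal.comp (h₁.comp hq)).continuousAt h₁').prodMk
    ((hm.snd.sub hq.snd.continuousAt).div
      (Complex.continuous_ofReal.comp (h₂.comp hq)).continuousAt h₂')

theorem htc_mono {r r' : ℝ} (h : r' ≤ r) {Φ Φ' : V → C3} {y₀ y₀' : V} (H : HT r Φ Φ' y₀ y₀') :
    HT r' Φ Φ' y₀ y₀' := by
  obtain ⟨T, h1, h2, h3⟩ := H
  exact ⟨T, h1.mono (ball_subset_ball h), h2, fun y hy => h3 y (ball_subset_ball h hy)⟩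

/-- the local statement near one pair of points -/
theorem htc_loc {X : Set C3} {B : AA} (hX : Surf2 X) (hB : B.Ok X) (c c' : B.C)
    (x₀ : (V × V) × V × V)
    (hU : aff (B.l₁ c x₀.1.1) (B.l₂ c x₀.1.1) x₀.1.1 x₀.2.1 ∈ B.U c)
    (hU' : aff (B.l₁ c' x₀.1.2) (B.l₂ c' x₀.1.2) x₀.1.2 x₀.2.2 ∈ B.U c') :
    ∃ t ∈ 𝓝 x₀, ∃ r : ℝ, 0 < r ∧ ∀ x ∈ t, B.ch c x.1.1 x.2.1 = B.ch c' x.1.2 x.2.2 →
      HT r (B.ch c x.1.1) (B.ch c' x.1.2) x.2.1 x.2.2 := by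
  have hP := hB.par c
  have hP' := hB.par c'
  have hΨ := (hP.hol.contDiffAt (hP.op.mem_nhds hU)).continuousAt
  have hΨ' := (hP'.hol.contDiffAt (hP'.op.mem_nhds hU')).continuousAt
  have hm : Continuous fun x : (V × V) × V × V =>
      aff (B.l₁ c x.1.1) (B.l₂ c x.1.1) x.1.1 x.2.1 :=
    htc_aff_cont (hB.c₁ c) (hB.c₂ c) continuous_fst.fst continuous_snd.fst
  have hm' : Continuous fun x : (V × V) × V × V =>
      aff (B.l₁ c' x.1.2) (B.l₂ c' x.1.2) x.1.2 x.2.2 :=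
    htc_aff_cont (hB.c₁ c') (hB.c₂ c') continuous_fst.snd continuous_snd.snd
  by_cases heq : B.ch c x₀.1.1 x₀.2.1 = B.ch c' x₀.1.2 x₀.2.2
  swap
  · have h1 : ContinuousAt (fun x : (V × V) × V × V => B.ch c x.1.1 x.2.1) x₀ :=
      ContinuousAt.comp (g := B.Ψ c) hΨ hm.continuousAt
    have h2 : ContinuousAt (fun x : (V × V) × V × V => B.ch c' x.1.2 x.2.2) x₀ :=
      ContinuousAt.comp (g := B.Ψ c') hΨ' hm'.continuousAt
    exact ⟨_, (h1.ne_iff_eventually_ne h2).1 heq, 1, one_pos, fun x hx h => absurd h hx⟩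
  obtain ⟨R, O, hO, hpO, hR, hl, hr⟩ := hX.2 _ _ hP' _ hU'
  have hM : Continuous fun z : ((V × V) × V × V) × V =>
      aff (B.l₁ c z.1.1.1) (B.l₂ c z.1.1.1) z.1.1.1 (z.1.2.1 + z.2) :=
    htc_aff_cont (hB.c₁ c) (hB.c₂ c) continuous_fst.fst.fst
      (continuous_fst.snd.fst.add continuous_snd)
  have hM0 : Tendsto (fun z : ((V × V) × V × V) × V =>
      aff (B.l₁ c z.1.1.1) (B.l₂ c z.1.1.1) z.1.1.1 (z.1.2.1 + z.2)) (𝓝 (x₀, 0))
      (𝓝 (aff (B.l₁ c x₀.1.1) (B.l₂ c x₀.1.1) x₀.1.1 x₀.2.1)) :=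
    hM.tendsto' _ _ (by simp only [add_zero])
  have hp : Tendsto (fun z : ((V × V) × V × V) × V => B.ch c z.1.1.1 (z.1.2.1 + z.2))
      (𝓝 (x₀, 0)) (𝓝 (B.ch c' x₀.1.2 x₀.2.2)) := by
    rw [← heq]
    exact hΨ.tendsto.comp hM0
  have hp0 : B.ch c x₀.1.1 (x₀.2.1 + 0) = B.ch c' x₀.1.2 x₀.2.2 := by rw [add_zero, heq]
  have hpc : ContinuousAt (fun z : ((V × V) × V × V) × V => B.ch c z.1.1.1 (z.1.2.1 + z.2))
      (x₀, 0) := by
    rw [← hp0] at hp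
    exact hp
  have hRc : ContinuousAt R (B.ch c x₀.1.1 (x₀.2.1 + 0)) := by
    rw [hp0]
    exact (hR.contDiffAt (hO.mem_nhds hpO)).continuousAt
  have hRp : ContinuousAt
      (fun z : ((V × V) × V × V) × V => R (B.ch c z.1.1.1 (z.1.2.1 + z.2))) (x₀, 0) :=
    ContinuousAt.comp (g := R) hRc hpc
  have hT : ContinuousAt (fun z : ((V × V) × V × V) × V =>
      ‖htc_inv (B.l₁ c' z.1.1.2) (B.l₂ c' z.1.1.2) z.1.1.2 (R (B.ch c z.1.1.1 (z.1.2.1 + z.2))) -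
        z.1.2.2‖) (x₀, 0) :=
    ((htc_inv_cont (hB.c₁ c') (hB.c₂ c') (hB.p₁ c') (hB.p₂ c') continuous_fst.fst.snd hRp).sub
      continuous_fst.snd.snd.continuousAt).norm
  have hT0 : ‖htc_inv (B.l₁ c' x₀.1.2) (B.l₂ c' x₀.1.2) x₀.1.2 (R (B.ch c x₀.1.1 (x₀.2.1 + 0))) -
      x₀.2.2‖ < 1 := by
    have h1 : R (B.ch c' x₀.1.2 x₀.2.2) = aff (B.l₁ c' x₀.1.2) (B.l₂ c' x₀.1.2) x₀.1.2 x₀.2.2 :=
      hl.self_of_nhds
    rw [hp0, h1, htc_inv_aff (hB.p₁ c' _) (hB.p₂ c' _), sub_self, norm_zero]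
    exact one_pos
  have e1 := hM0.eventually (hP.op.mem_nhds hU)
  have e2 := hp.eventually (hO.mem_nhds hpO)
  have e3 := hp.eventually (eventually_nhdsWithin_iff.1 hr)
  have e4 := hT.eventually_lt continuousAt_const hT0
  have e5 := hm'.continuousAt.tendsto.eventually hl
  obtain ⟨t, ht, s, hs, hts⟩ := mem_nhds_prod_iff.1 (e1.and (e2.and (e3.and e4)))
  obtain ⟨r, hr0, hrs⟩ := Metric.mem_nhds_iff.1 hs
  refine ⟨_, inter_mem ht e5, r, hr0, fun x hx h => ?_⟩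
  have key : ∀ y ∈ ball x.2.1 r, aff (B.l₁ c x.1.1) (B.l₂ c x.1.1) x.1.1 y ∈ B.U c ∧
      B.ch c x.1.1 y ∈ O ∧
      (B.ch c x.1.1 y ∈ X → B.Ψ c' (R (B.ch c x.1.1 y)) = B.ch c x.1.1 y) ∧
      ‖htc_inv (B.l₁ c' x.1.2) (B.l₂ c' x.1.2) x.1.2 (R (B.ch c x.1.1 y)) - x.2.2‖ < 1 := by
    intro y hy
    have h1 : y - x.2.1 ∈ s := hrs (by rwa [mem_ball_zero_iff, ← mem_ball_iff_norm])
    have h2 := hts (mk_mem_prod hx.1 h1)
    simp only [mem_ofPred_eq, add_sub_cancel] at h2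
    exact h2
  refine ⟨fun y => htc_inv (B.l₁ c' x.1.2) (B.l₂ c' x.1.2) x.1.2 (R (B.ch c x.1.1 y)), ?_, ?_,
    fun y hy => ⟨(key y hy).2.2.2.le, ?_⟩⟩
  · have h1 : ContDiffOn ℂ ∞ (B.ch c x.1.1) (ball x.2.1 r) :=
      hP.hol.comp (htc_aff_smooth _ _ _).contDiffOn fun y hy => (key y hy).1
    exact (htc_inv_smooth _ _ _).comp_contDiffOn (hR.comp h1 fun y hy => (key y hy).2.1)
  · have h1 : R (B.ch c' x.1.2 x.2.2) = aff (B.l₁ c' x.1.2) (B.l₂ c' x.1.2) x.1.2 x.2.2 := hx.2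
    simp only
    rw [h, h1, htc_inv_aff (hB.p₁ c' _) (hB.p₂ c' _)]
  · have h1 := (key y hy).2.2.1 (hP.mem (key y hy).1)
    rw [AA.ch, htc_aff_inv (hB.p₁ c' _) (hB.p₂ c' _), h1]

/-- one pair of types -/
theorem htc_pair {X : Set C3} {B : AA} (hX : Surf2 X) (hB : B.Ok X) (W : ℝ) (c c' : B.C) :
    ∀ᶠ r in 𝓝[>] (0 : ℝ), ∀ x ∈ ({q ∈ B.Q c | q.1.re ≤ W} ×ˢ {q ∈ B.Q c' | q.1.re ≤ W}) ×ˢ
      (closedBall (0 : V) 1 ×ˢ closedBall (0 : V) 1),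
      B.ch c x.1.1 x.2.1 = B.ch c' x.1.2 x.2.2 →
        HT r (B.ch c x.1.1) (B.ch c' x.1.2) x.2.1 x.2.2 := by
  have hK := ((hB.cpt c W).prod (hB.cpt c' W)).prod
    ((isCompact_closedBall (0 : V) 1).prod (isCompact_closedBall (0 : V) 1))
  refine hK.induction_on (p := fun s => ∀ᶠ r in 𝓝[>] (0 : ℝ), ∀ x ∈ s,
    B.ch c x.1.1 x.2.1 = B.ch c' x.1.2 x.2.2 → HT r (B.ch c x.1.1) (B.ch c' x.1.2) x.2.1 x.2.2)
    (Eventually.of_forall fun r x hx => absurd hx (notMem_empty x))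
    (fun s t hst ht => ht.mono fun r hr x hx => hr x (hst hx))
    (fun s t hs ht => (hs.and ht).mono fun r hr x hx => hx.elim (hr.1 x) (hr.2 x))
    fun x₀ hx₀ => ?_
  have h12 : closedBall (0 : V) 1 ⊆ closedBall 0 2 := closedBall_subset_closedBall one_le_two
  obtain ⟨t, ht, r, hr, H⟩ := htc_loc hX hB c c' x₀ (hB.into c _ hx₀.1.1.1 _ (h12 hx₀.2.1))
    (hB.into c' _ hx₀.1.2.1 _ (h12 hx₀.2.2))
  refine ⟨t, mem_nhdsWithin_of_mem_nhds ht, ?_⟩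
  filter_upwards [Ioo_mem_nhdsGT hr] with r' hr' x hx h
  exact htc_mono hr'.2.le (H x hx h)

theorem htc : SHTC := by
  intro X B hX hB W
  have h1 := eventually_all.2 fun c : B.C => eventually_all.2 fun c' : B.C => htc_pair hX hB W c c'
  obtain ⟨r, hr, H⟩ := ((show ∀ᶠ r in 𝓝[>] (0 : ℝ), 0 < r from self_mem_nhdsWithin).and h1).exists
  exact ⟨r, hr, fun c c' q hq q' hq' hW hW' y₀ hy y₀' hy' h =>
    H c c' ((q, q'), y₀, y₀') ⟨⟨⟨hq, hW⟩, hq', hW'⟩, hy, hy'⟩ h⟩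

end

end Pool.Agent.MP_67f0e4_gt.AT
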