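import Pool.Agent.MP_67f0e4_gt.AT.Spec

/-! Rows NEAR and PAR: the charts of an affine atlas. -/

set_option autoImplicit false

open scoped ContDiff Topology
open Set Metric Filter

namespace Pool.Agent.MP_67f0e4_gt.AT

open K EU

/-- the linear part of `aff` -/
noncomputable def near_L (l₁ l₂ : ℝ) : V →L[ℂ] V :=
  ((l₁ : ℂ) • ContinuousLinearMap.fst ℂ ℂ ℂ).prod ((l₂ : ℂ) • ContinuousLinearMap.snd ℂ ℂ ℂ)

theorem near_aff_eq (l₁ l₂ : ℝ) (q y : V) : aff l₁ l₂ q y = q + near_L l₁ l₂ y := by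
  ext <;> simp [aff, near_L]

theorem near_L_norm (l₁ l₂ : ℝ) (y : V) : ‖near_L l₁ l₂ y‖ ≤ (|l₁| + |l₂|) * ‖y‖ := by
  have h1 := norm_fst_le y
  have h2 := norm_snd_le y
  have h3 := abs_nonneg l₁
  have h4 := abs_nonneg l₂
  have h5 := norm_nonneg y
  have e : near_L l₁ l₂ y = ((l₁ : ℂ) * y.1, (l₂ : ℂ) * y.2) := by ext <;> simp [near_L]
  rw [e, Prod.norm_def, max_le_iff]
  simp only [norm_mul, Complex.norm_real, Real.norm_eq_abs]
  constructor <;> nlinarith [mul_le_mul_of_nonneg_left h1 h3, mul_le_mul_of_nonneg_left h2 h4,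
    mul_nonneg h3 h5, mul_nonneg h4 h5]

theorem near_L_inj {l₁ l₂ : ℝ} (h1 : 0 < l₁) (h2 : 0 < l₂) : Function.Injective (near_L l₁ l₂) := by
  intro y y' h
  have e1 : (l₁ : ℂ) ≠ 0 := by exact_mod_cast h1.ne'
  have e2 : (l₂ : ℂ) ≠ 0 := by exact_mod_cast h2.ne'
  have a1 : (l₁ : ℂ) * y.1 = l₁ * y'.1 := by simpa [near_L] using congrArg Prod.fst h
  have a2 : (l₂ : ℂ) * y.2 = l₂ * y'.2 := by simpa [near_L] using congrArg Prod.snd h
  exact Prod.ext (mul_left_cancel₀ e1 a1) (mul_left_cancel₀ e2 a2)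

theorem near_has (l₁ l₂ : ℝ) (q y : V) : HasFDerivAt (aff l₁ l₂ q) (near_L l₁ l₂) y := by
  have : aff l₁ l₂ q = fun y => q + near_L l₁ l₂ y := funext (near_aff_eq l₁ l₂ q)
  rw [this]
  exact (near_L l₁ l₂).hasFDerivAt.const_add q

theorem near_cd (l₁ l₂ : ℝ) (q : V) : ContDiff ℂ ∞ (aff l₁ l₂ q) := by
  have : aff l₁ l₂ q = fun y => q + near_L l₁ l₂ y := funext (near_aff_eq l₁ l₂ q)
  rw [this]
  exact contDiff_const.add (near_L l₁ l₂).contDiff

theorem par : SPAR := by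
  intro X B hB c q hq
  have hP := hB.par c
  have hm : MapsTo (aff (B.l₁ c q) (B.l₂ c q) q) (ball 0 2) (B.U c) := fun y hy =>
    hB.into c q hq y (ball_subset_closedBall hy)
  refine ⟨isOpen_ball, hP.hol.comp (near_cd _ _ q).contDiffOn hm, fun y hy => hP.mem (hm hy),
    fun y hy => ?_⟩
  have h1 : DifferentiableAt ℂ (B.Ψ c) (aff (B.l₁ c q) (B.l₂ c q) q y) :=
    (hP.hol.contDiffAt (hP.op.mem_nhds (hm hy))).differentiableAt (by simp)
  have h2 : HasFDerivAt (B.ch c q) _ y := h1.hasFDerivAt.comp y (near_has _ _ q y)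
  rw [h2.fderiv]
  exact (hP.inj _ (hm hy)).comp (near_L_inj (hB.p₁ c q) (hB.p₂ c q))

theorem near_iter {h : V → ℝ} {U : Set V} (hU : IsOpen U) (hh : ContDiffOn ℝ ∞ h U) (q : V)
    (L : V →L[ℝ] V) {y : V} (hy : q + L y ∈ U) (n : ℕ) :
    ‖iteratedFDeriv ℝ n (fun y => h (q + L y)) y‖ ≤ ‖iteratedFDeriv ℝ n h (q + L y)‖ * ‖L‖ ^ n := by
  have hs : IsOpen ((fun z => q + z) ⁻¹' U) := hU.preimage (continuous_const.add continuous_id)
  have hs' : IsOpen (L ⁻¹' ((fun z => q + z) ⁻¹' U)) := hs.preimage L.continuous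
  have hf : ContDiffOn ℝ ∞ (fun z => h (q + z)) ((fun z => q + z) ⁻¹' U) :=
    hh.comp (contDiff_const.add contDiff_id).contDiffOn fun _ hz => hz
  have h1 := L.iteratedFDerivWithin_comp_right hf hs.uniqueDiffOn hs'.uniqueDiffOn (x := y) hy
    (i := n) (by exact_mod_cast le_top)
  rw [iteratedFDerivWithin_of_isOpen n hs' hy, iteratedFDerivWithin_of_isOpen n hs hy,
    iteratedFDeriv_comp_add_left] at h1
  have h2 : (fun y => h (q + L y)) = (fun z => h (q + z)) ∘ L := rfl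
  rw [h2, h1]
  refine (ContinuousMultilinearMap.norm_compContinuousLinearMap_le _ _).trans (le_of_eq ?_)
  simp

theorem near : SNEAR := by
  intro X B g W hB hg
  have hsm : ∀ c, ContDiffOn ℝ ∞ (fun z => g (B.Ψ c z)) (B.U c) := fun c =>
    hg.comp_contDiffOn ((hB.par c).hol.restrict_scalars ℝ)
  have hin : ∀ c, ∀ q ∈ B.Q c, ∀ y ∈ closedBall (0 : V) 1, aff (B.l₁ c q) (B.l₂ c q) q y ∈ B.U c :=
    fun c q hq y hy => hB.into c q hq y (closedBall_subset_closedBall one_le_two hy)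
  refine ⟨fun x => (hsm x.1.1).comp ((near_cd _ _ x.1.2).restrict_scalars ℝ).contDiffOn
    fun y hy => hin _ _ x.2.1 y (ball_subset_closedBall hy), fun n => ?_⟩
  have key : ∀ c, ∃ C : ℝ, ∀ q ∈ B.Q c, q.1.re ≤ W → ∀ y ∈ ball (0 : V) 1,
      ‖iteratedFDeriv ℝ n (fun y => g (B.ch c q y)) y‖ ≤ C := by
    intro c
    have hK : IsCompact ({q ∈ B.Q c | q.1.re ≤ W} ×ˢ closedBall (0 : V) 1) :=
      (hB.cpt c W).prod (isCompact_closedBall _ _)
    have c1 := hB.c₁ c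
    have c2 := hB.c₂ c
    have ha : Continuous fun z : V × V => aff (B.l₁ c z.1) (B.l₂ c z.1) z.1 z.2 := by
      unfold aff
      fun_prop
    have hi : ContinuousOn (iteratedFDeriv ℝ n fun z => g (B.Ψ c z)) (B.U c) := fun z hz =>
      (((hsm c).contDiffAt ((hB.par c).op.mem_nhds hz)).continuousAt_iteratedFDeriv
        (by exact_mod_cast le_top)).continuousWithinAt
    have hc : ContinuousOn (fun z : V × V =>
        ‖iteratedFDeriv ℝ n (fun z => g (B.Ψ c z)) (aff (B.l₁ c z.1) (B.l₂ c z.1) z.1 z.2)‖ *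
          (|B.l₁ c z.1| + |B.l₂ c z.1|) ^ n) ({q ∈ B.Q c | q.1.re ≤ W} ×ˢ closedBall (0 : V) 1) :=
      (hi.comp ha.continuousOn fun z hz => hin c _ hz.1.1 _ hz.2).norm.mul (by fun_prop)
    obtain ⟨C, hC⟩ := hK.bddAbove_image hc
    refine ⟨C, fun q hq hW y hy => le_trans ?_
      (hC ⟨(q, y), ⟨⟨hq, hW⟩, ball_subset_closedBall hy⟩, rfl⟩)⟩
    have h0 := hin c q hq y (ball_subset_closedBall hy)
    have e : (fun y => g (B.ch c q y)) = fun y => (fun z => g (B.Ψ c z))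
        (q + (near_L (B.l₁ c q) (B.l₂ c q)).restrictScalars ℝ y) := by
      funext y
      simp only [AA.ch, near_aff_eq]
      rfl
    rw [near_aff_eq] at h0
    rw [e]
    refine (near_iter (hB.par c).op (hsm c) q _ h0 n).trans ?_
    simp only [near_aff_eq]
    refine mul_le_mul_of_nonneg_left (pow_le_pow_left₀ (norm_nonneg _) ?_ n) (norm_nonneg _)
    exact ContinuousLinearMap.opNorm_le_bound _ (by positivity) fun v => near_L_norm _ _ v
  choose C hC using key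
  refine ⟨∑ c, |C c|, fun x y hy => (hC _ _ x.2.1 x.2.2 y hy).trans ((le_abs_self _).trans ?_)⟩
  exact Finset.single_le_sum (f := fun c => |C c|) (fun c _ => abs_nonneg _) (Finset.mem_univ _)

end Pool.Agent.MP_67f0e4_gt.AT
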