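import Pool.Agent.MP_67f0e4_gt.AT.Spec

/-! The concrete atlas satisfies the axioms of the abstract one. -/

set_option autoImplicit false

open scoped ContDiff Topology
open Set Metric Filter

namespace Pool.Agent.MP_67f0e4_gt.AT

open K EU

variable {n : ℕ}

theorem ok_inj {N : V → C3} {x : V} (hN : DifferentiableAt ℂ N x) (p q : C3 →L[ℂ] ℂ)
    {A B : V →L[ℂ] ℂ} (hA : HasFDerivAt (fun y => p (N y)) A x)
    (hB : HasFDerivAt (fun y => q (N y)) B x) (h : ∀ v, A v = 0 → B v = 0 → v = 0) :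
    Function.Injective (fderiv ℂ N x) := by
  rw [injective_iff_map_eq_zero]
  intro v hv
  refine h v ?_ ?_
  · rw [hA.unique (p.hasFDerivAt.comp x hN.hasFDerivAt), ContinuousLinearMap.comp_apply, hv,
      map_zero]
  · rw [hB.unique (q.hasFDerivAt.comp x hN.hasFDerivAt), ContinuousLinearMap.comp_apply, hv,
      map_zero]

theorem ok_Pz (a : Fin n → ℂ) : ContDiff ℂ ∞ (Pz a) := by
  unfold Pz
  exact contDiff_prod fun j _ => contDiff_id.sub contDiff_const

theorem ok_cov (a : Fin n → ℂ) : ContDiff ℂ ∞ (cov a) := by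
  have h1 : ContDiff ℂ ∞ fun q : V => q.2 * Complex.exp (2 * q.1) :=
    contDiff_snd.mul (contDiff_const.mul contDiff_fst).cexp
  exact (contDiff_const.mul contDiff_fst).cexp.prodMk
    ((((ok_Pz a).comp h1).mul (contDiff_const.mul contDiff_fst).neg.cexp).prodMk h1)

theorem ok_mem (a : Fin n → ℂ) (q : V) : cov a q ∈ Xs a := by
  show Complex.exp (n * q.1) * (Pz a _ * Complex.exp (-(n * q.1))) = Pz a _
  rw [mul_left_comm, ← Complex.exp_add, add_neg_cancel, Complex.exp_zero, mul_one]
  rfl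

theorem ok_inj' (hn : 1 ≤ n) {N : V → C3} {x : V} (hN : DifferentiableAt ℂ N x)
    (p q : C3 →L[ℂ] ℂ) (hp : ∀ y, p (N y) = Complex.exp (n * y.1))
    (hq : ∀ y, q (N y) = y.2 * Complex.exp (2 * y.1)) : Function.Injective (fderiv ℂ N x) := by
  have h1 := ((hasFDerivAt_fst (𝕜 := ℂ) (p := x)).const_mul (n : ℂ)).cexp
  have h2 := (hasFDerivAt_snd (𝕜 := ℂ) (p := x)).mul
    ((hasFDerivAt_fst (𝕜 := ℂ) (p := x)).const_mul (2 : ℂ)).cexp
  refine ok_inj hN p q (h1.congr_of_eventuallyEq (Eventually.of_forall hp))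
    (h2.congr_of_eventuallyEq (Eventually.of_forall hq)) fun v e1 e2 => ?_
  have h3 : v.1 = 0 := by
    have : n ≠ 0 := by omega
    simpa [this] using e1
  exact Prod.ext h3 (by simpa [h3] using e2)

theorem ok_far (hn : 1 ≤ n) {q y : V} {R : ℝ} (hy : y ∈ closedBall (0 : V) 1)
    (h : ‖Complex.exp (n * (aff (1 / 8 * max 1 q.1.re) (1 / 8) q y).1)‖ ≤ R) :
    q.1.re ≤ max 1 (2 * R) := by
  rcases le_total q.1.re 1 with h1 | h1
  · exact h1.trans (le_max_left _ _)
  refine le_trans ?_ (le_max_right _ _)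
  have h2 : |y.1.re| ≤ 1 :=
    (Complex.abs_re_le_norm _).trans ((norm_fst_le y).trans (mem_closedBall_zero_iff.1 hy))
  have h3 : (n * (aff (1 / 8 * max 1 q.1.re) (1 / 8) q y).1).re =
      n * (q.1.re + 1 / 8 * q.1.re * y.1.re) := by
    rw [max_eq_right h1, ← Complex.ofReal_natCast, Complex.re_ofReal_mul]
    show _ * (q.1 + ((1 / 8 * q.1.re : ℝ) : ℂ) * y.1).re = _
    rw [Complex.add_re, Complex.re_ofReal_mul]
  rw [Complex.norm_exp, h3] at h
  have h4 := (Real.add_one_le_exp _).trans h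
  have h5 : (1 : ℝ) ≤ n := by exact_mod_cast hn
  have h6 : 7 / 8 * q.1.re ≤ q.1.re + 1 / 8 * q.1.re * y.1.re := by
    nlinarith [(abs_le.1 h2).1]
  nlinarith

theorem ok : SOK := by
  intro n a σ ε ζ W Ξ hn hZ
  have hσ := hZ.σ_pos
  have h0 : (∞ : WithTop ℕ∞) ≠ 0 := by simp
  have hsw : ContDiff ℂ ∞ fun q => swap (cov a q) :=
    (ok_cov a).snd.fst.prodMk ((ok_cov a).fst.prodMk (ok_cov a).snd.snd)
  have hb : ∀ q ∈ ball (0 : V) (4 * σ), q.1 * q.2 ∈ ball (0 : ℂ) (16 * σ ^ 2) := fun q hq => by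
    rw [mem_ball_zero_iff] at hq ⊢
    have h1 := (norm_fst_le q).trans_lt hq
    have h2 := (norm_snd_le q).trans_lt hq
    rw [norm_mul]
    nlinarith [mul_lt_mul'' h1 h2 (norm_nonneg _) (norm_nonneg _)]
  refine ⟨?_, ?_, ?_, ?_, ?_, ?_, ?_, fun R => ⟨max 1 (2 * R), ?_⟩⟩
  · rintro ((_ | _) | j)
    · exact ⟨isOpen_univ, (ok_cov a).contDiffOn, fun q _ => ok_mem a q, fun x _ =>
        ok_inj' hn ((ok_cov a).differentiable h0 x) (.fst ℂ _ _)
          ((ContinuousLinearMap.snd ℂ _ _).comp (.snd ℂ _ _)) (fun _ => rfl) fun _ => rfl⟩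
    · exact ⟨isOpen_univ, hsw.contDiffOn, fun q _ => (mul_comm _ _).trans (ok_mem a q), fun x _ =>
        ok_inj' hn (hsw.differentiable h0 x) ((ContinuousLinearMap.fst ℂ _ _).comp (.snd ℂ _ _))
          ((ContinuousLinearMap.snd ℂ _ _).comp (.snd ℂ _ _)) (fun _ => rfl) fun _ => rfl⟩
    · have hs : ContDiffOn ℂ ∞ (fun q : V => ((q.1, q.2, ζ j (q.1 * q.2)) : C3))
          (ball 0 (4 * σ)) :=
        contDiffOn_fst.prodMk (contDiffOn_snd.prodMk
          ((hZ.hol j).comp (contDiffOn_fst.mul contDiffOn_snd) hb))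
      exact ⟨isOpen_ball, hs, fun q hq => (hZ.right j _ (hb q hq)).symm, fun x hx =>
        ok_inj ((hs.contDiffAt (isOpen_ball.mem_nhds hx)).differentiableAt h0) (.fst ℂ _ _)
          ((ContinuousLinearMap.fst ℂ _ _).comp (.snd ℂ _ _)) hasFDerivAt_fst hasFDerivAt_snd
          fun v e1 e2 => Prod.ext e1 e2⟩
  · rintro (b | j) q hq y hy
    · exact mem_univ _
    · have h1 : ‖q‖ ≤ σ := mem_closedBall_zero_iff.1 hq
      have h2 : ‖y‖ ≤ 2 := mem_closedBall_zero_iff.1 hy
      have h3 : aff σ σ q y = q + (σ : ℂ) • y := rfl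
      show aff σ σ q y ∈ ball (0 : V) (4 * σ)
      rw [mem_ball_zero_iff, h3]
      refine (norm_add_le _ _).trans_lt ?_
      rw [norm_smul, Complex.norm_real, Real.norm_eq_abs, abs_of_pos hσ]
      nlinarith
  · rintro (b | j)
    · exact continuous_const.mul
        (continuous_const.max (Complex.continuous_re.comp continuous_fst))
    · exact continuous_const
  · rintro (b | j) <;> exact continuous_const
  · rintro (b | j) q
    · exact mul_pos (by norm_num) (lt_max_of_lt_left one_pos)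
    · exact hσ
  · rintro (b | j) q
    · exact (by norm_num : (0 : ℝ) < 1 / 8)
    · exact hσ
  · have hre : Continuous fun q : V => q.1.re := Complex.continuous_re.comp continuous_fst
    rintro (b | j) W'
    · refine Metric.isCompact_of_isClosed_isBounded
        (((isClosed_le continuous_const hre).inter
          ((isClosed_le (Complex.continuous_im.comp continuous_fst).abs continuous_const).inter
            (isClosed_le continuous_snd.norm continuous_const))).inter
          (isClosed_le hre continuous_const))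
        (isBounded_iff_forall_norm_le.2 ⟨|W| + |W'| + 4 + |Ξ|, ?_⟩)
      rintro q ⟨⟨h1, h2, h3⟩, h4⟩
      have a1 := le_abs_self W
      have a2 := le_abs_self W'
      have a3 := le_abs_self Ξ
      have b1 := abs_nonneg W
      have b2 := abs_nonneg W'
      have b3 := abs_nonneg Ξ
      have h5 : |q.1.re| ≤ |W| + |W'| := abs_le.2 ⟨by linarith, by linarith⟩
      exact norm_prod_le_iff.2 ⟨(Complex.norm_le_abs_re_add_abs_im _).trans (by linarith),
        by linarith⟩
    · exact (isCompact_closedBall (0 : V) σ).inter_right (isClosed_le hre continuous_const)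
  · rintro ((_ | _) | j) q hq y hy h
    · exact ok_far hn hy ((norm_fst_le _).trans h)
    · exact ok_far hn hy (((norm_fst_le _).trans (norm_snd_le _)).trans h)
    · have h1 : ‖q‖ ≤ σ := mem_closedBall_zero_iff.1 hq
      exact (((Complex.re_le_norm _).trans ((norm_fst_le q).trans h1)).trans hZ.σ_le).trans
        (le_max_left _ _)

end Pool.Agent.MP_67f0e4_gt.AT
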