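import Pool.Agent.MP_67f0e4_gt.AT.Spec

/-! Block A3: holomorphic local inverses of the parametrisations. -/

set_option autoImplicit false

open scoped ContDiff Topology
open Set Metric Filter

namespace Pool.Agent.MP_67f0e4_gt.AT

open K EU

theorem surf_gen {X : Set C3} {N : V → C3} {U : Set V} (hN : Par X N U) {a : V} (ha : a ∈ U)
    (π : C3 →L[ℂ] V) (s : V → C3) {G : Set C3} (hG : IsOpen G) (haG : N a ∈ G)
    (hs : ∀ p ∈ G, DifferentiableAt ℂ s (π p)) (hl : ∀ p ∈ G, p ∈ X → s (π p) = p) :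
    ∃ (R : C3 → V) (O : Set C3), IsOpen O ∧ N a ∈ O ∧
      ContDiffOn ℂ ∞ R O ∧ (∀ᶠ x in 𝓝 a, R (N x) = x) ∧ ∀ᶠ p in 𝓝[X] (N a), N (R p) = p := by
  have hU : IsOpen (U ∩ N ⁻¹' G) := hN.hol.continuousOn.isOpen_inter_preimage hN.op hG
  have hf : ∀ x ∈ U ∩ N ⁻¹' G, ContDiffAt ℂ ∞ (π ∘ N) x := fun x hx =>
    π.contDiff.contDiffAt.comp x (hN.hol.contDiffAt (hN.op.mem_nhds hx.1))
  have hA : ∀ x ∈ U ∩ N ⁻¹' G, ∃ A : V ≃L[ℂ] V, HasFDerivAt (π ∘ N) (A : V →L[ℂ] V) x := by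
    intro x hx
    have h1 := ((hf x hx).differentiableAt (by simp)).hasFDerivAt
    have h2 : N =ᶠ[𝓝 x] s ∘ (π ∘ N) := by
      filter_upwards [hU.mem_nhds hx] with y hy using (hl _ hy.2 (hN.mem hy.1)).symm
    have h3 := (((hs _ hx.2).hasFDerivAt.comp x h1).congr_of_eventuallyEq h2).fderiv
    have h4 : Function.Injective (fderiv ℂ (π ∘ N) x) := by
      have h5 := hN.inj x hx.1
      rw [h3, ContinuousLinearMap.coe_comp] at h5
      exact h5.of_comp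
    refine ⟨(LinearEquiv.ofBijective (fderiv ℂ (π ∘ N) x : V →ₗ[ℂ] V)
      ⟨h4, LinearMap.injective_iff_surjective.1 h4⟩).toContinuousLinearEquiv, ?_⟩
    exact h1.congr_fderiv (ContinuousLinearMap.ext fun _ => rfl)
  have ha' : a ∈ U ∩ N ⁻¹' G := ⟨ha, haG⟩
  obtain ⟨A, hA0⟩ := hA a ha'
  obtain ⟨e, he, hea⟩ : ∃ e : OpenPartialHomeomorph V V, (e : V → V) = π ∘ N ∧ a ∈ e.source :=
    ⟨(hf a ha').toOpenPartialHomeomorph _ hA0 (by simp), rfl,
      (hf a ha').mem_toOpenPartialHomeomorph_source hA0 (by simp)⟩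
  have hO : IsOpen (π ⁻¹' (e.target ∩ e.symm ⁻¹' (U ∩ N ⁻¹' G))) :=
    (e.isOpen_inter_preimage_symm hU).preimage π.continuous
  have hv : ∀ x, π (N x) = e x := fun x => by rw [he]; rfl
  have haO : N a ∈ π ⁻¹' (e.target ∩ e.symm ⁻¹' (U ∩ N ⁻¹' G)) := by
    show π (N a) ∈ e.target ∧ e.symm (π (N a)) ∈ U ∩ N ⁻¹' G
    rw [hv, e.left_inv hea]
    exact ⟨e.map_source hea, ha'⟩
  refine ⟨e.symm ∘ π, _, hO, haO, fun p hp => ?_, ?_, ?_⟩
  · obtain ⟨B, hB⟩ := hA _ hp.2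
    exact ((e.contDiffAt_symm hp.1 (he ▸ hB) (he ▸ hf _ hp.2)).comp p
      π.contDiff.contDiffAt).contDiffWithinAt
  · filter_upwards [e.eventually_left_inverse hea] with x hx
    show e.symm (π (N x)) = x
    rw [hv, hx]
  · filter_upwards [self_mem_nhdsWithin, mem_nhdsWithin_of_mem_nhds (hO.mem_nhds haO),
      mem_nhdsWithin_of_mem_nhds (hG.mem_nhds haG)] with p hp h1 h2
    show N (e.symm (π p)) = p
    rw [← hl _ h1.2.2 (hN.mem h1.2.1), hv, e.right_inv h1.1, hl p h2 hp]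

theorem surf_diff {n : ℕ} (a : Fin n → ℂ) : Differentiable ℂ (Pz a) := by
  unfold Pz
  fun_prop

theorem surf_quot {n : ℕ} (a : Fin n → ℂ) {q : V} (h : q.1 ≠ 0) :
    DifferentiableAt ℂ (fun q : V => Pz a q.2 / q.1) q := by
  simp only [div_eq_mul_inv]
  exact ((surf_diff a _).comp q differentiableAt_snd).mul (differentiableAt_fst.inv h)

theorem surf : SSURF := by
  intro n a σ ε ζ hZ
  have hP := surf_diff a
  refine ⟨isClosed_eq (continuous_fst.mul continuous_snd.fst)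
    (hP.continuous.comp continuous_snd.snd), fun N U hN x hx => ?_⟩
  by_cases h1 : (N x).1 ≠ 0
  · refine surf_gen hN hx ((ContinuousLinearMap.fst ℂ ℂ (ℂ × ℂ)).prod
      ((ContinuousLinearMap.snd ℂ ℂ ℂ).comp (ContinuousLinearMap.snd ℂ ℂ (ℂ × ℂ))))
      (fun q => (q.1, Pz a q.2 / q.1, q.2)) (G := {p | p.1 ≠ 0})
      (isOpen_ne_fun continuous_fst continuous_const) h1 (fun p hp => ?_) fun p hp hX => ?_
    · exact differentiableAt_fst.prodMk
        ((surf_quot a (q := (p.1, p.2.2)) hp).prodMk differentiableAt_snd)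
    · have e : p.1 * p.2.1 = Pz a p.2.2 := hX
      show (p.1, Pz a p.2.2 / p.1, p.2.2) = p
      rw [← e, mul_div_cancel_left₀ _ hp]
  by_cases h2 : (N x).2.1 ≠ 0
  · refine surf_gen hN hx (ContinuousLinearMap.snd ℂ ℂ (ℂ × ℂ))
      (fun q => (Pz a q.2 / q.1, q.1, q.2)) (G := {p | p.2.1 ≠ 0})
      (isOpen_ne_fun continuous_snd.fst continuous_const) h2 (fun p hp => ?_) fun p hp hX => ?_
    · exact (surf_quot a hp).prodMk (differentiableAt_fst.prodMk differentiableAt_snd)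
    · have e : p.1 * p.2.1 = Pz a p.2.2 := hX
      show (Pz a p.2.2 / p.2.1, p.2.1, p.2.2) = p
      rw [← e, mul_div_cancel_right₀ _ hp]
  have h0 : (N x).1 * (N x).2.1 = 0 := by rw [not_not.1 h1, zero_mul]
  have hσ := hZ.σ_pos
  have e0 : (N x).1 * (N x).2.1 = Pz a (N x).2.2 := hN.mem hx
  obtain ⟨j, hj⟩ := hZ.near (N x).2.2 (by rw [← e0, h0, norm_zero]; positivity)
  refine surf_gen hN hx ((ContinuousLinearMap.fst ℂ ℂ (ℂ × ℂ)).prod
    ((ContinuousLinearMap.fst ℂ ℂ ℂ).comp (ContinuousLinearMap.snd ℂ ℂ (ℂ × ℂ))))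
    (fun q => (q.1, q.2, ζ j (q.1 * q.2)))
    (G := {p | p.2.2 ∈ ball (a j) ε} ∩ {p | p.1 * p.2.1 ∈ ball 0 (16 * σ ^ 2)})
    ((isOpen_ball.preimage continuous_snd.snd).inter
      (isOpen_ball.preimage (continuous_fst.mul continuous_snd.fst)))
    ⟨mem_ball_iff_norm.2 (hj.trans_lt (half_lt_self hZ.ε_pos)), ?_⟩ (fun p hp => ?_)
    fun p hp hX => ?_
  · show (N x).1 * (N x).2.1 ∈ ball (0 : ℂ) (16 * σ ^ 2)
    rw [h0]
    exact mem_ball_self (by positivity)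
  · have h3 : DifferentiableAt ℂ (ζ j) (p.1 * p.2.1) :=
      ((hZ.hol j).contDiffAt (isOpen_ball.mem_nhds hp.2)).differentiableAt (by simp)
    exact differentiableAt_fst.prodMk (differentiableAt_snd.prodMk
      (DifferentiableAt.comp (g := ζ j) (f := fun q : V => q.1 * q.2) _ h3
        (differentiableAt_fst.mul differentiableAt_snd)))
  · have e : p.1 * p.2.1 = Pz a p.2.2 := hX
    show (p.1, p.2.1, ζ j (p.1 * p.2.1)) = p
    rw [e, hZ.left j _ (mem_ball_iff_norm.1 hp.1).le]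

end Pool.Agent.MP_67f0e4_gt.AT
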