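import Pool.Agent.MP_67f0e4_gt.AT.Spec

/-! Row TH: the partition of unity. -/

set_option autoImplicit false

open scoped ContDiff Topology
open Set Metric Filter

namespace Pool.Agent.MP_67f0e4_gt.AT

open K EU

theorem th_ang0 {v : ℝ} (h : v ≤ 0) : ang v = 0 := by
  rw [ang, Real.smoothTransition.zero_of_nonpos h, mul_zero]

theorem th_ang1 {v : ℝ} (h : 1 ≤ v) : Real.cos (ang v) = 0 := by
  rw [ang, Real.smoothTransition.one_of_one_le h, mul_one, Real.cos_pi_div_two]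

theorem th_sin {v : ℝ} (h : Real.sin (ang v) ≠ 0) : 0 < v :=
  lt_of_not_ge fun q => h (by rw [th_ang0 q, Real.sin_zero])

theorem th_cos {v : ℝ} (h : Real.cos (ang v) ≠ 0) : v < 1 := lt_of_not_ge fun q => h (th_ang1 q)

theorem th_lt {s t : ℝ} (ht : 0 < t) : 4 * s / (3 * t ^ 2) - 1 / 3 < 1 ↔ s < t ^ 2 := by
  rw [sub_lt_iff_lt_add, div_lt_iff₀ (by positivity)]
  constructor <;> intro h <;> linarith

theorem th_pos {s t : ℝ} (ht : 0 < t) : 0 < 4 * s / (3 * t ^ 2) - 1 / 3 ↔ t ^ 2 / 4 < s := by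
  rw [sub_pos, lt_div_iff₀ (by positivity)]
  constructor <;> intro h <;> linarith

theorem th_sm : ContDiff ℝ ∞ ang := contDiff_const.mul Real.smoothTransition.contDiff

theorem th_y : ContDiff ℝ ∞ fun p : C3 => ‖p.2.1‖ ^ 2 :=
  (contDiff_fst.comp contDiff_snd).norm_sq ℂ

theorem th_s : ContDiff ℝ ∞ fun p : C3 => ‖p.1‖ ^ 2 + ‖p.2.1‖ ^ 2 :=
  (contDiff_fst.norm_sq ℂ).add th_y

theorem th_step {f : C3 → ℝ} (hf : ContDiff ℝ ∞ f) (t : ℝ) :
    ContDiff ℝ ∞ fun p => ang (4 * f p / (3 * t ^ 2) - 1 / 3) :=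
  th_sm.comp (((contDiff_const.mul hf).div_const _).sub contDiff_const)

theorem th_cov {σ : ℝ} (hσ : 0 < σ) {g : ℝ → ℝ} (hg : ContDiff ℝ ∞ g) : ContDiff ℝ ∞ fun p : C3 =>
    Real.sin (ang (4 * (‖p.1‖ ^ 2 + ‖p.2.1‖ ^ 2) / (3 * σ ^ 2) - 1 / 3)) *
      g (ang (2 * (‖p.2.1‖ ^ 2 / (‖p.1‖ ^ 2 + ‖p.2.1‖ ^ 2)) - 1 / 2)) := by
  refine contDiff_iff_contDiffAt.2 fun p => ?_
  by_cases h : ‖p.1‖ ^ 2 + ‖p.2.1‖ ^ 2 < σ ^ 2 / 4
  · refine (contDiffAt_const (c := (0 : ℝ))).congr_of_eventuallyEq ?_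
    filter_upwards [th_s.continuous.continuousAt.eventually_lt continuousAt_const h] with q hq
    rw [th_ang0 (le_of_not_gt fun e => hq.not_gt ((th_pos hσ).1 e)), Real.sin_zero, zero_mul]
  · have h0 : ‖p.1‖ ^ 2 + ‖p.2.1‖ ^ 2 ≠ 0 := fun e => h (by rw [e]; positivity)
    exact (th_step th_s σ).sin.contDiffAt.mul ((hg.comp th_sm).contDiffAt.comp p
      ((contDiffAt_const.mul (th_y.contDiffAt.div th_s.contDiffAt h0)).sub contDiffAt_const))

theorem rth : STH := by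
  intro n a σ ε ζ _ hZ
  have hσ := hZ.σ_pos
  have hε := hZ.ε_pos
  refine ⟨fun c => ?_, fun c p h => ?_, fun p hp => ?_⟩
  · rcases c with (_ | _) | j
    · exact th_cov hσ Real.contDiff_cos
    · exact th_cov hσ Real.contDiff_sin
    · exact (th_step th_s σ).cos.mul (th_step
        (((contDiff_snd.comp contDiff_snd).sub contDiff_const).norm_sq ℂ) ε).cos
  · rcases c with (_ | _) | j
    · have h1 := (th_pos hσ).1 (th_sin (left_ne_zero_of_mul h))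
      have h2 := th_cos (right_ne_zero_of_mul h)
      have h3 : ‖p.2.1‖ ^ 2 / (‖p.1‖ ^ 2 + ‖p.2.1‖ ^ 2) < 3 / 4 := by linarith
      rw [div_lt_iff₀ (lt_trans (by positivity) h1)] at h3
      exact ⟨by linarith, by linarith⟩
    · have h1 := (th_pos hσ).1 (th_sin (left_ne_zero_of_mul h))
      have h2 := th_sin (right_ne_zero_of_mul h)
      have h3 : 1 / 4 < ‖p.2.1‖ ^ 2 / (‖p.1‖ ^ 2 + ‖p.2.1‖ ^ 2) := by linarith
      rw [lt_div_iff₀ (lt_trans (by positivity) h1)] at h3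
      exact ⟨by linarith, by linarith⟩
    · exact ⟨((th_lt hσ).1 (th_cos (left_ne_zero_of_mul h))).le,
        (lt_of_pow_lt_pow_left₀ 2 hε.le ((th_lt hε).1 (th_cos (right_ne_zero_of_mul h)))).le⟩
  · rw [Fintype.sum_sum_type, Fintype.sum_bool]
    simp only [th, mul_pow, ← Finset.mul_sum]
    rw [← mul_add, Real.sin_sq_add_cos_sq, mul_one]
    by_cases h : Real.cos (ang (4 * (‖p.1‖ ^ 2 + ‖p.2.1‖ ^ 2) / (3 * σ ^ 2) - 1 / 3)) = 0
    · rw [Real.sin_sq, h]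
      ring
    have h1 := (th_lt hσ).1 (th_cos h)
    obtain ⟨j, hj⟩ := hZ.near p.2.2 (by
      rw [← (show p.1 * p.2.1 = _ from hp), norm_mul]
      nlinarith [sq_nonneg (‖p.1‖ - ‖p.2.1‖), norm_nonneg p.1, norm_nonneg p.2.1])
    rw [Finset.sum_eq_single j (fun k _ hk => ?_) (fun q => (q (Finset.mem_univ _)).elim),
      th_ang0 (v := 4 * ‖p.2.2 - a j‖ ^ 2 / (3 * ε ^ 2) - 1 / 3)
        (le_of_not_gt fun e => ?_), Real.cos_zero, one_pow, mul_one, Real.sin_sq_add_cos_sq]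
    · have := (th_pos hε).1 e
      nlinarith [norm_nonneg (p.2.2 - a j)]
    · have h2 := hZ.sep k j hk
      have h3 := norm_sub_le_norm_sub_add_norm_sub (a k) p.2.2 (a j)
      rw [norm_sub_rev (a k) p.2.2] at h3
      rw [th_ang1 (le_of_not_gt fun e => ?_), zero_pow two_ne_zero]
      have := (th_lt hε).1 e
      nlinarith [norm_nonneg (p.2.2 - a k)]

end Pool.Agent.MP_67f0e4_gt.AT
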