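import Pool.Agent.MP_67f0e4_gt.AT.Spec

/-! Row XY: change of chart between the two covers, far out. -/

set_option autoImplicit false

open scoped ContDiff Topology
open Set Metric Filter

namespace Pool.Agent.MP_67f0e4_gt.AT

open K EU

noncomputable section

variable {n : ℕ}

/-- the homogeneous form of `Pz` -/
def xy_G (a : Fin n → ℂ) (p : V) : ℂ := ∏ j, (p.1 - a j * p.2)

/-- its value at a point of the cover -/
def xy_g (a : Fin n → ℂ) (p : V) : ℂ := xy_G a (p.2, Complex.exp (-(2 * p.1)))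

lemma xy_G_cont (a : Fin n → ℂ) : Continuous (xy_G a) := by
  unfold xy_G
  fun_prop

lemma xy_g_sm (a : Fin n → ℂ) : ContDiff ℂ ∞ (xy_g a) := by
  unfold xy_g xy_G
  exact contDiff_prod fun j _ => by fun_prop

lemma xy_snd (a : Fin n → ℂ) (p : V) : (cov a p).2.1 = Complex.exp (n * p.1) * xy_g a p := by
  have h1 : ∀ j, p.2 * Complex.exp (2 * p.1) - a j =
      Complex.exp (2 * p.1) * (p.2 - a j * Complex.exp (-(2 * p.1))) := fun j => by
    rw [Complex.exp_neg]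
    field_simp
  have h2 : Complex.exp (2 * p.1) ^ n * Complex.exp (-(n * p.1)) = Complex.exp (n * p.1) := by
    rw [← Complex.exp_nat_mul, ← Complex.exp_add]
    exact congrArg _ (by ring)
  change Pz a (p.2 * Complex.exp (2 * p.1)) * Complex.exp (-(n * p.1)) = _
  simp only [Pz, h1, Finset.prod_mul_distrib, Finset.prod_const, Finset.card_univ,
    Fintype.card_fin, xy_g, xy_G]
  rw [← h2]
  ring

lemma xy_swap (a : Fin n → ℂ) (p p' : V)
    (h1 : Complex.exp (n * p'.1) = Complex.exp (n * p.1) * xy_g a p)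
    (h2 : p'.2 * Complex.exp (2 * p'.1) = p.2 * Complex.exp (2 * p.1)) :
    swap (cov a p') = cov a p := by
  have h3 := xy_snd a p
  rw [← h1] at h3
  refine Prod.ext ?_ (Prod.ext h3.symm h2)
  change Pz a (p'.2 * Complex.exp (2 * p'.1)) * Complex.exp (-(n * p'.1)) = Complex.exp (n * p.1)
  change Pz a (p.2 * Complex.exp (2 * p.1)) * Complex.exp (-(n * p.1)) = _ at h3
  rw [h2, Complex.exp_neg, ← h3, Complex.exp_neg]
  have h4 : Pz a (p.2 * Complex.exp (2 * p.1)) ≠ 0 := fun h => by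
    rw [h, zero_mul] at h3
    exact Complex.exp_ne_zero _ h3.symm
  field_simp

lemma xy_re {q y : V} (hq : 1 ≤ q.1.re) :
    |(aff (1 / 8 * max 1 q.1.re) (1 / 8) q y).1.re - q.1.re| ≤ q.1.re / 8 * ‖y‖ := by
  rw [max_eq_right hq]
  have h1 : (aff (1 / 8 * q.1.re) (1 / 8) q y).1.re - q.1.re = q.1.re / 8 * y.1.re := by
    simp only [aff, Complex.add_re, Complex.re_ofReal_mul]
    ring
  rw [h1, abs_mul, abs_of_nonneg (by linarith)]
  exact mul_le_mul_of_nonneg_left ((Complex.abs_re_le_norm _).trans (norm_fst_le y)) (by linarith)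

lemma xy_pt {q y : V} {W Ξ : ℝ} (hW : 1 ≤ W) (hq : W ≤ q.1.re) (hΞ : ‖q.2‖ ≤ Ξ) (hy : ‖y‖ ≤ 2) :
    ‖(aff (1 / 8 * max 1 q.1.re) (1 / 8) q y).2‖ ≤ |Ξ| + 1 ∧
    ‖Complex.exp (-(2 * (aff (1 / 8 * max 1 q.1.re) (1 / 8) q y).1))‖ ≤ Real.exp (-W) := by
  constructor
  · refine (norm_add_le _ _).trans ?_
    rw [norm_mul, Complex.norm_real, Real.norm_eq_abs, abs_of_pos (by norm_num)]
    linarith [norm_snd_le y, le_abs_self Ξ]
  · have h1 := (abs_le.1 (xy_re (y := y) (hW.trans hq))).1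
    rw [Complex.norm_exp, Real.exp_le_exp]
    have h2 : q.1.re / 8 * ‖y‖ ≤ q.1.re / 8 * 2 := mul_le_mul_of_nonneg_left hy (by linarith)
    simp only [Complex.neg_re, Complex.mul_re, Complex.re_ofNat, Complex.im_ofNat]
    linarith

lemma xy_exp {D M : ℝ} (hn : 1 ≤ n) (hM : 1 ≤ M) (h : Real.exp (n * D) ≤ M) : Real.exp D ≤ M := by
  rcases le_total D 0 with hD | hD
  · exact (Real.exp_le_one_iff.2 hD).trans hM
  · refine (Real.exp_le_exp.2 ?_).trans h
    have : (1 : ℝ) ≤ n := by exact_mod_cast hn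
    nlinarith

lemma xy_est {κ ξ ξ₀ L : ℂ} {M B r : ℝ} (hn : 1 ≤ n) (hM : 1 ≤ M) (hB : 1 ≤ B) (hκ : ‖κ‖ ≤ M ^ 2)
    (hξ : ‖ξ‖ ≤ B) (hd : ‖ξ - ξ₀‖ ≤ r / 8) (hr : r ≤ 1 / (4 * M ^ 2))
    (hL : ‖L‖ ≤ 1 / (64 * B * M ^ 2)) :
    ‖8 * (κ * (ξ * Complex.exp (-(2 * (L / n))) - ξ₀))‖ ≤ 1 := by
  have hM2 : 1 ≤ M ^ 2 := one_le_pow₀ hM
  have hn' : (1 : ℝ) ≤ n := by exact_mod_cast hn
  have h1 : ‖-(2 * (L / n))‖ ≤ 2 * ‖L‖ := by
    rw [norm_neg, norm_mul, norm_div, Complex.norm_natCast, Complex.norm_ofNat]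
    exact mul_le_mul_of_nonneg_left (div_le_self (norm_nonneg _) hn') (by norm_num)
  rw [le_div_iff₀ (by positivity)] at hL hr
  have h0 := norm_nonneg L
  have h2 : ‖L‖ * 64 ≤ 1 := by
    have : ‖L‖ * 64 * 1 ≤ ‖L‖ * 64 * (B * M ^ 2) :=
      mul_le_mul_of_nonneg_left (by nlinarith) (by positivity)
    linarith
  have h3 := Complex.norm_exp_sub_one_le (x := -(2 * (L / n))) (by linarith)
  have h4 : ‖ξ * Complex.exp (-(2 * (L / n))) - ξ₀‖ ≤ r / 8 + B * (4 * ‖L‖) := by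
    rw [show ξ * Complex.exp (-(2 * (L / n))) - ξ₀ =
      (ξ - ξ₀) + ξ * (Complex.exp (-(2 * (L / n))) - 1) by ring]
    refine (norm_add_le _ _).trans (add_le_add hd ?_)
    rw [norm_mul]
    exact mul_le_mul hξ (by linarith) (norm_nonneg _) (by linarith)
  rw [norm_mul, norm_mul, Complex.norm_ofNat]
  have h5 := mul_le_mul hκ h4 (norm_nonneg _) (by linarith)
  linarith

theorem xy : SXY := by
  intro n a Ξ hn
  have hn' : (1 : ℝ) ≤ n := by exact_mod_cast hn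
  have hn0 : (n : ℂ) ≠ 0 := Nat.cast_ne_zero.2 (by omega)
  obtain ⟨B, hB⟩ : ∃ B, B = |Ξ| + 1 := ⟨_, rfl⟩
  have hB1 : 1 ≤ B := by linarith [abs_nonneg Ξ]
  have hK := isCompact_closedBall (0 : V) B
  obtain ⟨M₀, hM₀⟩ := hK.exists_bound_of_continuousOn (xy_G_cont a).continuousOn
  obtain ⟨M, hM, hMb⟩ : ∃ M : ℝ, 1 ≤ M ∧ ∀ p ∈ closedBall (0 : V) B, ‖xy_G a p‖ ≤ M :=
    ⟨max 1 M₀, le_max_left _ _, fun p hp => (hM₀ p hp).trans (le_max_right _ _)⟩
  obtain ⟨δ, hδ, hu⟩ := Metric.uniformContinuousOn_iff.1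
    (hK.uniformContinuousOn_of_continuous (xy_G_cont a).continuousOn)
    (1 / (64 * B * M ^ 2) / (2 * M)) (by positivity)
  obtain ⟨W₀, hW₀⟩ := eventually_atTop.1 (Real.tendsto_exp_neg_atTop_nhds_zero.eventually
    (gt_mem_nhds (show (0 : ℝ) < δ / 2 by positivity)))
  obtain ⟨W, hW1, hW2⟩ : ∃ W : ℝ, 2 * M ≤ W ∧ Real.exp (-W) < δ / 2 :=
    ⟨max W₀ (2 * M), le_max_right _ _, hW₀ _ (le_max_left _ _)⟩
  have hW : 1 ≤ W := by linarith
  have hM2 : 1 ≤ M ^ 2 := one_le_pow₀ hM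
  obtain ⟨r, hr0, hr1, hr2⟩ : ∃ r : ℝ, 0 < r ∧ r ≤ δ ∧ r ≤ 1 / (4 * M ^ 2) :=
    ⟨min δ (1 / (4 * M ^ 2)), by positivity, min_le_left _ _, min_le_right _ _⟩
  have hr3 : r ≤ 1 / 4 := hr2.trans (one_div_le_one_div_of_le (by norm_num) (by linarith))
  have hlam : 1 / (64 * B * M ^ 2) ≤ 1 / 16 :=
    one_div_le_one_div_of_le (by norm_num) (by nlinarith)
  refine ⟨W, r, hr0, fun q q' hq hq' hΞ hΞ' y₀ hy₀ y₀' hy₀' h => ?_⟩
  rw [mem_closedBall_zero_iff] at hy₀ hy₀'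
  have hmem : ∀ {q y : V}, W ≤ q.1.re → ‖q.2‖ ≤ Ξ → ‖y‖ ≤ 2 →
      ((aff (1 / 8 * max 1 q.1.re) (1 / 8) q y).2,
        Complex.exp (-(2 * (aff (1 / 8 * max 1 q.1.re) (1 / 8) q y).1))) ∈ closedBall (0 : V) B :=
    fun h1 h2 h3 => by
      obtain ⟨h4, h5⟩ := xy_pt hW h1 h2 h3
      rw [mem_closedBall_zero_iff, Prod.norm_def]
      exact max_le (hB ▸ h4) (h5.trans ((Real.exp_le_one_iff.2 (by linarith)).trans hB1))
  have r1 := abs_le.1 (xy_re (y := y₀) (hW.trans hq))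
  have r2 := abs_le.1 (xy_re (y := y₀') (hW.trans hq'))
  have m0 := hmem hq hΞ (show ‖y₀‖ ≤ 2 by linarith)
  have m0' := hMb _ (hmem hq' hΞ' (show ‖y₀'‖ ≤ 2 by linarith))
  have p0 := xy_pt hW hq hΞ (show ‖y₀‖ ≤ 2 by linarith)
  have my := fun y => hmem (y := y) hq hΞ
  have py := fun y => xy_pt (y := y) hW hq hΞ
  unfold cch at h ⊢
  have hl : 1 / 8 * max 1 q.1.re = q.1.re / 8 := by rw [max_eq_right (hW.trans hq)]; ring
  have hl' : 1 / 8 * max 1 q'.1.re = q'.1.re / 8 := by rw [max_eq_right (hW.trans hq')]; ring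
  generalize 1 / 8 * max 1 q.1.re = l at *
  generalize 1 / 8 * max 1 q'.1.re = l' at *
  have hl0 : 0 < l' := by linarith
  have hl0' : (l' : ℂ) ≠ 0 := Complex.ofReal_ne_zero.2 hl0.ne'
  obtain ⟨P, hP⟩ : ∃ P : V → V, P = aff l (1 / 8) q := ⟨_, rfl⟩
  obtain ⟨p', hp'⟩ : ∃ p' : V, p' = aff l' (1 / 8) q' y₀' := ⟨_, rfl⟩
  rw [← hP] at h r1 m0 p0 my py ⊢
  rw [← hp'] at h r2 m0'
  have e1 : Complex.exp (n * (P y₀).1) = Complex.exp (n * p'.1) * xy_g a p' :=
    (congrArg Prod.fst h).trans (xy_snd a p')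
  have e2 : Complex.exp (n * (P y₀).1) * xy_g a (P y₀) = Complex.exp (n * p'.1) :=
    (xy_snd a _).symm.trans (congrArg (fun x => x.2.1) h)
  have e3 : (P y₀).2 * Complex.exp (2 * (P y₀).1) = p'.2 * Complex.exp (2 * p'.1) :=
    congrArg (fun x => x.2.2) h
  have e4 : xy_g a (P y₀) * xy_g a p' = 1 := by
    apply mul_left_cancel₀ (Complex.exp_ne_zero (n * (P y₀).1))
    rw [← mul_assoc, e2, ← e1, mul_one]
  have g0 : xy_g a (P y₀) ≠ 0 := left_ne_zero_of_mul_eq_one e4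
  have hD : Real.exp ((P y₀).1.re - p'.1.re) ≤ M := by
    refine xy_exp hn hM (le_of_eq_of_le ?_ m0')
    have h1 : xy_g a p' = Complex.exp (n * (P y₀).1 - n * p'.1) := by
      rw [Complex.exp_sub, e1, mul_div_cancel_left₀ _ (Complex.exp_ne_zero _)]
    change _ = ‖xy_g a p'‖
    rw [h1, Complex.norm_exp]
    exact congrArg _ (by simp; ring)
  have hκ : ‖Complex.exp (2 * (P y₀).1 - 2 * p'.1)‖ ≤ M ^ 2 := by
    rw [Complex.norm_exp, show (2 * (P y₀).1 - 2 * p'.1).re =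
      (2 : ℕ) * ((P y₀).1.re - p'.1.re) by simp; ring, Real.exp_nat_mul]
    exact pow_le_pow_left₀ (Real.exp_pos _).le hD 2
  have hll : l ≤ 2 * l' := by
    have h1 := Real.add_one_le_exp ((P y₀).1.re - p'.1.re)
    have h2 : q.1.re / 8 * ‖y₀‖ ≤ q.1.re / 8 * 1 := mul_le_mul_of_nonneg_left hy₀ (by linarith)
    have h3 : q'.1.re / 8 * ‖y₀'‖ ≤ q'.1.re / 8 * 1 := mul_le_mul_of_nonneg_left hy₀' (by linarith)
    linarith [r1.1, r2.2]
  have d1 : ∀ y ∈ ball y₀ r, ‖(P y).1 - (P y₀).1‖ ≤ l * r ∧ ‖(P y).2 - (P y₀).2‖ ≤ r / 8 ∧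
      ‖y‖ ≤ 2 := fun y hy => by
    rw [mem_ball_iff_norm] at hy
    refine ⟨?_, ?_, ?_⟩
    · rw [show (P y).1 - (P y₀).1 = l * (y - y₀).1 by rw [hP]; simp only [aff, Prod.fst_sub]; ring,
        norm_mul, Complex.norm_real, Real.norm_eq_abs, abs_of_pos (by linarith)]
      exact mul_le_mul_of_nonneg_left ((norm_fst_le _).trans hy.le) (by linarith)
    · rw [show (P y).2 - (P y₀).2 = (1 / 8 : ℝ) * (y - y₀).2 by
        rw [hP]; simp only [aff, Prod.snd_sub]; ring,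
        norm_mul, Complex.norm_real, Real.norm_eq_abs, abs_of_pos (by norm_num)]
      linarith [norm_snd_le (y - y₀)]
    · linarith [norm_le_norm_add_norm_sub' y y₀]
  have d2 : ∀ y ∈ ball y₀ r, ‖xy_g a (P y) / xy_g a (P y₀) - 1‖ ≤ 1 / (64 * B * M ^ 2) / 2 :=
    fun y hy => by
      obtain ⟨-, h2, h3⟩ := d1 y hy
      have h4 := hu _ (my y h3) _ m0 (by
        rw [Prod.dist_eq, dist_eq_norm, dist_eq_norm]
        refine max_lt (by linarith) ((norm_sub_le _ _).trans_lt ?_)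
        linarith [(py y h3).2, p0.2])
      rw [dist_eq_norm] at h4
      rw [show xy_g a (P y) / xy_g a (P y₀) - 1 = (xy_g a (P y) - xy_g a (P y₀)) * xy_g a p' by
        rw [eq_inv_of_mul_eq_one_right e4]; field_simp, norm_mul]
      refine (mul_le_mul h4.le m0' (norm_nonneg _) (by positivity)).trans (le_of_eq ?_)
      field_simp
  have d3 : ∀ y ∈ ball y₀ r, xy_g a (P y) / xy_g a (P y₀) ∈ Complex.slitPlane := fun y hy => by
    have := Complex.mem_slitPlane_of_norm_lt_one ((d2 y hy).trans_lt (by linarith))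
    rwa [add_sub_cancel] at this
  have d4 : ∀ y ∈ ball y₀ r,
      ‖Complex.log (xy_g a (P y) / xy_g a (P y₀))‖ ≤ 1 / (64 * B * M ^ 2) := fun y hy => by
    have h1 := d2 y hy
    have := Complex.norm_log_one_add_half_le_self (h1.trans (by linarith))
    rw [add_sub_cancel] at this
    linarith [norm_nonneg (xy_g a (P y) / xy_g a (P y₀) - 1)]
  have hPs : ContDiff ℂ ∞ P := by
    rw [hP]
    unfold aff
    fun_prop
  obtain ⟨L, hL⟩ : ∃ L : V → ℂ, L = fun y => Complex.log (xy_g a (P y) / xy_g a (P y₀)) := ⟨_, rfl⟩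
  have hLs : ContDiffOn ℂ ∞ L (ball y₀ r) := fun y hy => by
    rw [hL]
    exact ((Complex.contDiffAt_log (d3 y hy)).comp y
      (((xy_g_sm a).comp hPs).div_const _).contDiffAt).contDiffWithinAt
  have hL0 : L y₀ = 0 := by simp only [hL, div_self g0, Complex.log_one]
  refine ⟨fun y => (y₀'.1 + ((P y).1 - (P y₀).1 + L y / n) / l',
    y₀'.2 + 8 * (Complex.exp (2 * (P y₀).1 - 2 * p'.1) *
      ((P y).2 * Complex.exp (-(2 * (L y / n))) - (P y₀).2))), ?_, by simp [hL0], fun y hy => ?_⟩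
  · refine (contDiffOn_const.add (((hPs.fst.contDiffOn.sub contDiffOn_const).add
      (hLs.div_const _)).div_const _)).prodMk (contDiffOn_const.add (contDiffOn_const.mul
        (contDiffOn_const.mul ((hPs.snd.contDiffOn.mul ?_).sub contDiffOn_const))))
    exact (contDiffOn_const.mul (hLs.div_const _)).neg.cexp
  obtain ⟨h1, h2, h3⟩ := d1 y hy
  have h4 : ‖L y‖ ≤ 1 / (64 * B * M ^ 2) := hL ▸ d4 y hy
  have h5 : Complex.exp (L y) = xy_g a (P y) / xy_g a (P y₀) :=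
    hL ▸ Complex.exp_log (Complex.slitPlane_ne_zero (d3 y hy))
  constructor
  · rw [Prod.norm_def]
    simp only [Prod.fst_sub, Prod.snd_sub, add_sub_cancel_left]
    refine max_le ?_ (xy_est hn hM hB1 hκ (hB ▸ (py y h3).1) h2 hr2 h4)
    rw [norm_div, Complex.norm_real, Real.norm_eq_abs, abs_of_pos hl0, div_le_one hl0]
    refine (norm_add_le _ _).trans ?_
    have h6 : ‖L y / n‖ ≤ ‖L y‖ := by
      rw [norm_div, Complex.norm_natCast]
      exact div_le_self (norm_nonneg _) hn'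
    have h7 : l * r ≤ 2 * l' * (1 / 4) := mul_le_mul hll hr3 hr0.le (by linarith)
    linarith
  · have a1 : ∀ u v : ℂ, aff l' (1 / 8) q' (y₀'.1 + u / l', y₀'.2 + 8 * v) =
        (p'.1 + u, p'.2 + v) := fun u v => by
      rw [hp']
      simp only [aff, Prod.mk.injEq]
      constructor
      · field_simp
        ring
      · push_cast
        ring
    have e5 : p'.2 = Complex.exp (2 * (P y₀).1 - 2 * p'.1) * (P y₀).2 := by
      rw [Complex.exp_sub, div_mul_eq_mul_div, mul_comm, e3,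
        mul_div_cancel_right₀ _ (Complex.exp_ne_zero _)]
    change swap (cov a (aff l' (1 / 8) q' _)) = cov a (P y)
    rw [a1]
    refine xy_swap a _ _ ?_ ?_
    · change Complex.exp (n * (p'.1 + ((P y).1 - (P y₀).1 + L y / n))) = _
      rw [show n * (p'.1 + ((P y).1 - (P y₀).1 + L y / n)) =
        n * p'.1 + n * (P y).1 + L y - n * (P y₀).1 by field_simp; ring,
        Complex.exp_sub, Complex.exp_add, Complex.exp_add, h5, ← e2]
      field_simp
    · change (p'.2 + _) * Complex.exp (2 * (p'.1 + ((P y).1 - (P y₀).1 + L y / n))) = _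
      rw [mul_sub, ← e5, add_sub_cancel, mul_left_comm, mul_assoc, mul_assoc, ← Complex.exp_add,
        ← Complex.exp_add]
      exact congrArg _ (congrArg _ (by ring))

end

end Pool.Agent.MP_67f0e4_gt.AT
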