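import Pool.Agent.MP_67f0e4_gt.AT.Spec

/-! Row ZETA: local inverses of the polynomial near its roots. -/

set_option autoImplicit false

open scoped ContDiff Topology
open Set Metric Filter

namespace Pool.Agent.MP_67f0e4_gt.AT

open K EU

theorem zeta_loc {n : ℕ} (a : Fin n → ℂ) (ha : Function.Injective a) (j : Fin n) :
    ∃ (ζ : ℂ → ℂ) (r s : ℝ), 0 < r ∧ 0 < s ∧ ContDiffOn ℂ ∞ ζ (ball 0 r) ∧
      (∀ u ∈ ball (0 : ℂ) r, Pz a (ζ u) = u) ∧ ∀ z ∈ ball (a j) s, ζ (Pz a z) = z := by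
  have hc : ContDiffAt ℂ ω (Pz a) (a j) :=
    (contDiff_prod fun k _ => contDiff_id.sub contDiff_const).contDiffAt
  have hd : HasDerivAt (Pz a) (∑ i, (∏ k ∈ Finset.univ.erase i, (a j - a k)) • (1 : ℂ)) (a j) :=
    HasDerivAt.fun_finsetProd (f := fun k z => z - a k) fun k _ => (hasDerivAt_id _).sub_const _
  have h0 : Pz a (a j) = 0 := Finset.prod_eq_zero (Finset.mem_univ j) (sub_self _)
  have hne : ∑ i, (∏ k ∈ Finset.univ.erase i, (a j - a k)) • (1 : ℂ) ≠ 0 := by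
    rw [Finset.sum_eq_single j, smul_eq_mul, mul_one]
    · exact Finset.prod_ne_zero_iff.2 fun k hk =>
        sub_ne_zero.2 fun h => (Finset.mem_erase.1 hk).1 (ha h).symm
    · intro i _ hi
      rw [Finset.prod_eq_zero (Finset.mem_erase.2 ⟨hi.symm, Finset.mem_univ j⟩) (sub_self _),
        zero_smul]
    · exact fun h => absurd (Finset.mem_univ j) h
  have hf := hd.hasFDerivAt_equiv hne
  have hn : (ω : WithTop ℕ∞) ≠ 0 := by simp
  have h1 := (hc.to_localInverse hf hn).eventually (by simp)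
  have h2 : ∀ᶠ y in 𝓝 (Pz a (a j)), Pz a (hc.localInverse hf hn y) = y :=
    (hc.hasStrictFDerivAt' hf hn).eventually_right_inverse
  have h3 : ∀ᶠ x in 𝓝 (a j), hc.localInverse hf hn (Pz a x) = x :=
    (hc.hasStrictFDerivAt' hf hn).eventually_left_inverse
  obtain ⟨r, hr, h4⟩ := Metric.eventually_nhds_iff_ball.1 (h1.and h2)
  obtain ⟨s, hs, h5⟩ := Metric.eventually_nhds_iff_ball.1 h3
  rw [h0] at h4
  exact ⟨hc.localInverse hf hn, r, s, hr, hs,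
    fun u hu => ((h4 u hu).1.of_le le_top).contDiffWithinAt, fun u hu => (h4 u hu).2, h5⟩

theorem zeta_small {ι : Type} [Finite ι] (f : ι → ℝ) (hf : ∀ i, 0 < f i) :
    ∃ c : ℝ, 0 < c ∧ ∀ i, c ≤ f i := by
  have h : ∀ᶠ c in 𝓝[>] (0 : ℝ), ∀ i, c ≤ f i :=
    eventually_all.2 fun i => nhdsWithin_le_nhds (eventually_le_nhds (hf i))
  obtain ⟨c, h1, h2⟩ := (h.and self_mem_nhdsWithin).exists
  exact ⟨c, h2, h1⟩

theorem zeta : SZETA := by
  intro n a hn ha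
  choose ζ r s hr hs h1 h2 h3 using zeta_loc a ha
  obtain ⟨e₁, he₁, hs₁⟩ := zeta_small (fun j => s j / 2) fun j => half_pos (hs j)
  obtain ⟨e₂, he₂, hs₂⟩ := zeta_small (ι := {q : Fin n × Fin n // q.1 ≠ q.2})
    (fun q => ‖a q.1.1 - a q.1.2‖ / 2)
    fun q => half_pos (norm_pos_iff.2 (sub_ne_zero.2 fun h => q.2 (ha h)))
  obtain ⟨ρ, hρ, hρr⟩ := zeta_small r hr
  obtain ⟨ε, hε, hε₁, hε₂⟩ : ∃ ε : ℝ, 0 < ε ∧ ε ≤ e₁ ∧ ε ≤ e₂ :=
    ⟨min e₁ e₂, lt_min he₁ he₂, min_le_left _ _, min_le_right _ _⟩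
  have hp : 0 < (ε / 2) ^ n := pow_pos (half_pos hε) n
  obtain ⟨σ, hσ, hσ1, hσ2, hσ3⟩ : ∃ σ : ℝ, 0 < σ ∧ σ ≤ 1 ∧ σ ≤ ρ / 16 ∧ σ ≤ (ε / 2) ^ n :=
    ⟨min 1 (min (ρ / 16) ((ε / 2) ^ n)), lt_min one_pos (lt_min (by positivity) hp),
      min_le_left _ _, (min_le_right _ _).trans (min_le_left _ _),
      (min_le_right _ _).trans (min_le_right _ _)⟩
  have hsq : σ ^ 2 ≤ σ := by nlinarith
  have hb : ∀ j, ball (0 : ℂ) (16 * σ ^ 2) ⊆ ball 0 (r j) := fun j =>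
    ball_subset_ball (by linarith [hρr j])
  refine ⟨σ, ε, ζ, hσ, hσ1, hε, fun j => (h1 j).mono (hb j), fun j u hu => h2 j u (hb j hu),
    fun j z hz => h3 j z ?_, fun j k hjk => ?_, fun z hz => ?_⟩
  · rw [mem_ball_iff_norm]
    linarith [hs₁ j, hs j]
  · have h := hs₂ ⟨(j, k), hjk⟩
    dsimp only at h
    linarith
  · by_contra h
    push Not at h
    have : Nonempty (Fin n) := ⟨⟨0, hn⟩⟩
    have h4 : ∏ _j : Fin n, ε / 2 < ∏ j, ‖z - a j‖ :=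
      Finset.prod_lt_prod_of_nonempty (fun _ _ => half_pos hε) (fun j _ => h j) Finset.univ_nonempty
    rw [Finset.prod_const, Finset.card_univ, Fintype.card_fin, ← norm_prod] at h4
    have h5 : ‖Pz a z‖ = ‖∏ j, (z - a j)‖ := rfl
    linarith

end Pool.Agent.MP_67f0e4_gt.AT
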