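import Pool.Agent.MP_67f0e4_gt.K.Spec
import Pool.Agent.MP_67f0e4_gt.EU.Main
import Pool.Agent.MP_67f0e4_gt.AT.Asm
import Pool.Agent.MP_67f0e4_gt.AT.RCEN
import Pool.Agent.MP_67f0e4_gt.AT.RCPT
import Pool.Agent.MP_67f0e4_gt.AT.RFAR
import Pool.Agent.MP_67f0e4_gt.AT.RHTC
import Pool.Agent.MP_67f0e4_gt.AT.RNEAR
import Pool.Agent.MP_67f0e4_gt.AT.ROK
import Pool.Agent.MP_67f0e4_gt.AT.RSURF
import Pool.Agent.MP_67f0e4_gt.AT.RTH
import Pool.Agent.MP_67f0e4_gt.AT.RXX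
import Pool.Agent.MP_67f0e4_gt.AT.RXY
import Pool.Agent.MP_67f0e4_gt.AT.RZETA

/-! Block A3: the surface and its atlas of quasi-charts. -/

set_option autoImplicit false

namespace Pool.Agent.MP_67f0e4_gt.AT

open K EU

theorem atlas : SATL := atlas_of par cpt htc zeta surf ok cen xx xy rth far cau near

theorem surfX : K.SURF := fun n a hn ha => by
  obtain ⟨σ, ε, ζ, h⟩ := zeta n a hn ha
  exact (surf n a σ ε ζ h).surf

theorem atlX : K.ATL := fun n a hn ha hS hR => by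
  obtain ⟨Ξ, F, A, h1, h2, h3⟩ := atlas n a hn ha
  obtain ⟨h4, h5⟩ := mainA _ F A _ hS hR h3
  exact ⟨1 / 8, ⟨by norm_num, le_rfl⟩, Ξ, F, h1, h2, h4, h5⟩

end Pool.Agent.MP_67f0e4_gt.AT
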