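import Pool.Agent.MP_67f0e4_gt.AT.Spec

/-! Change of chart on one cover. -/

open Set Metric

namespace Pool.Agent.MP_67f0e4_gt.AT

open K EU

theorem xx_cov {n : ℕ} (a : Fin n → ℂ) {p p' : V}
    (h1 : Complex.exp (n * p.1) = Complex.exp (n * p'.1))
    (h2 : p.2 * Complex.exp (2 * p.1) = p'.2 * Complex.exp (2 * p'.1)) : cov a p = cov a p' := by
  simp only [cov, Complex.exp_neg, h1, h2]

theorem xx_re {y : V} (hy : y ∈ closedBall (0 : V) 1) : |y.1.re| ≤ 1 :=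
  (Complex.abs_re_le_norm _).trans ((norm_fst_le y).trans (mem_closedBall_zero_iff.1 hy))

theorem xx : SXX := by
  intro n a hn q q' y₀ hy y₀' hy' e
  obtain ⟨s, hs⟩ : ∃ s : ℝ, s = 1 / 8 * max 1 q.1.re := ⟨_, rfl⟩
  obtain ⟨s', hs'⟩ : ∃ s : ℝ, s = 1 / 8 * max 1 q'.1.re := ⟨_, rfl⟩
  simp only [cch, ← hs, ← hs'] at e ⊢
  have p1 : 1 / 8 ≤ s := by linarith [le_max_left 1 q.1.re]
  have p2 : 1 / 8 ≤ s' := by linarith [le_max_left 1 q'.1.re]
  have e1 : Complex.exp (n * (q.1 + s * y₀.1)) = Complex.exp (n * (q'.1 + s' * y₀'.1)) :=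
    congrArg Prod.fst e
  have e2 : (q.2 + (1 / 8 : ℝ) * y₀.2) * Complex.exp (2 * (q.1 + s * y₀.1)) =
      (q'.2 + (1 / 8 : ℝ) * y₀'.2) * Complex.exp (2 * (q'.1 + s' * y₀'.1)) :=
    congrArg (fun p : C3 => p.2.2) e
  have e3 : q.1.re + s * y₀.1.re = q'.1.re + s' * y₀'.1.re := by
    have h := congrArg norm e1
    rw [Complex.norm_exp, Complex.norm_exp, Real.exp_eq_exp] at h
    simp only [Complex.mul_re, Complex.natCast_re, Complex.natCast_im, zero_mul, sub_zero,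
      Complex.add_re, Complex.ofReal_re, Complex.ofReal_im] at h
    exact mul_left_cancel₀ (Nat.cast_ne_zero.2 (by omega)) h
  have hs0 : (s' : ℂ) ≠ 0 := Complex.ofReal_ne_zero.2 (by linarith)
  refine ⟨s / s', Complex.exp (2 * (q.1 + s * y₀.1) - 2 * (q'.1 + s' * y₀'.1)),
    by positivity, ?_, ?_, fun u => xx_cov a ?_ ?_⟩
  · rw [div_le_iff₀ (by linarith)]
    have a1 := abs_le.1 (xx_re hy)
    have a2 := abs_le.1 (xx_re hy')
    have a3 := le_max_right 1 q'.1.re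
    rcases le_total 1 q.1.re with h | h
    · rw [max_eq_right h] at hs
      nlinarith [a1.1, a2.2]
    · rw [max_eq_left h] at hs
      linarith
  · rw [← Complex.exp_nat_mul, show (n : ℂ) * (2 * (q.1 + s * y₀.1) - 2 * (q'.1 + s' * y₀'.1)) =
      (2 : ℕ) * (n * (q.1 + s * y₀.1)) - (2 : ℕ) * (n * (q'.1 + s' * y₀'.1)) by push_cast; ring,
      Complex.exp_sub, Complex.exp_nat_mul _ 2, Complex.exp_nat_mul _ 2, e1,
      div_self (pow_ne_zero _ (Complex.exp_ne_zero _))]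
  · simp only [aff, dg, Prod.fst_add]
    rw [show (n : ℂ) * (q'.1 + s' * (y₀'.1 + (s / s' : ℝ) * u.1)) =
        n * (q'.1 + s' * y₀'.1) + n * (s * u.1) by push_cast; field_simp; ring,
      show (n : ℂ) * (q.1 + s * (y₀.1 + u.1)) = n * (q.1 + s * y₀.1) + n * (s * u.1) by ring,
      Complex.exp_add, Complex.exp_add, e1]
  · simp only [aff, dg, Prod.fst_add, Prod.snd_add]
    rw [show (2 : ℂ) * (q'.1 + s' * (y₀'.1 + (s / s' : ℝ) * u.1)) =
        2 * (q'.1 + s' * y₀'.1) + 2 * (s * u.1) by push_cast; field_simp; ring,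
      show (2 : ℂ) * (q.1 + s * (y₀.1 + u.1)) = 2 * (q.1 + s * y₀.1) + 2 * (s * u.1) by ring,
      Complex.exp_add, Complex.exp_add, Complex.exp_sub]
    have h0 := Complex.exp_ne_zero (2 * (q'.1 + s' * y₀'.1))
    generalize Complex.exp (2 * (q'.1 + s' * y₀'.1)) = A at h0 e2 ⊢
    generalize Complex.exp (2 * (q.1 + s * y₀.1)) = B at e2 ⊢
    generalize Complex.exp (2 * (s * u.1)) = C
    have h1 : B / A * A = B := div_mul_cancel₀ _ h0
    push_cast at e2 ⊢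
    linear_combination (-C) * e2 + (1 / 8 * u.2 * C) * h1

end Pool.Agent.MP_67f0e4_gt.AT
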