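import Pool.Agent.MP_67f0e4_gt.EU.SpecC

/-! Block A3: the atlas of quasi-charts of `x y = P(z)`. Definitions and row statements. -/

set_option autoImplicit false

open scoped ContDiff Topology
open Set Metric Filter

namespace Pool.Agent.MP_67f0e4_gt.AT

open K EU

noncomputable section

/-! ### Atlases of affine pieces of finitely many parametrisations -/

/-- the affine map with centre `q` and scales `l₁, l₂` -/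
def aff (l₁ l₂ : ℝ) (q y : V) : V := (q.1 + l₁ * y.1, q.2 + l₂ * y.2)

/-- finitely many base maps with sets of centres and scales -/
structure AA where
  C : Type
  [fC : Fintype C]
  Ψ : C → V → C3
  U : C → Set V
  Q : C → Set V
  l₁ : C → V → ℝ
  l₂ : C → V → ℝ

attribute [instance] AA.fC

/-- the chart of type `c` with centre `q` -/
def AA.ch (B : AA) (c : B.C) (q y : V) : C3 := B.Ψ c (aff (B.l₁ c q) (B.l₂ c q) q y)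

structure AA.Ok (B : AA) (X : Set C3) : Prop where
  par : ∀ c, Par X (B.Ψ c) (B.U c)
  into : ∀ c, ∀ q ∈ B.Q c, ∀ y ∈ closedBall (0 : V) 2, aff (B.l₁ c q) (B.l₂ c q) q y ∈ B.U c
  c₁ : ∀ c, Continuous (B.l₁ c)
  c₂ : ∀ c, Continuous (B.l₂ c)
  p₁ : ∀ c q, 0 < B.l₁ c q
  p₂ : ∀ c q, 0 < B.l₂ c q
  cpt : ∀ c (W : ℝ), IsCompact {q ∈ B.Q c | q.1.re ≤ W}
  prop : ∀ R : ℝ, ∃ W : ℝ, ∀ c, ∀ q ∈ B.Q c, ∀ y ∈ closedBall (0 : V) 1,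
    ‖B.ch c q y‖ ≤ R → q.1.re ≤ W

/-- the family `F` consists of the charts of `B` -/
structure AA.Is (B : AA) {X : Set C3} (F : Fam X) (ty : F.ι → B.C) (ce : F.ι → V) : Prop where
  mem : ∀ i, ce i ∈ B.Q (ty i)
  eq : ∀ i, F.Φ i = B.ch (ty i) (ce i)

/-- a holomorphic transition map on a ball of radius `r` -/
def HT (r : ℝ) (Φ Φ' : V → C3) (y₀ y₀' : V) : Prop :=
  ∃ T : V → V, ContDiffOn ℂ ∞ T (ball y₀ r) ∧ T y₀ = y₀' ∧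
    ∀ y ∈ ball y₀ r, ‖T y - y₀'‖ ≤ 1 ∧ Φ' (T y) = Φ y

/-- `Surf` with local inverses that are holomorphic on an open set -/
def Surf2 (X : Set C3) : Prop :=
  IsClosed X ∧ ∀ N U, Par X N U → ∀ a ∈ U, ∃ (R : C3 → V) (O : Set C3), IsOpen O ∧ N a ∈ O ∧
    ContDiffOn ℂ ∞ R O ∧ (∀ᶠ x in 𝓝 a, R (N x) = x) ∧ ∀ᶠ p in 𝓝[X] (N a), N (R p) = p

theorem Surf2.surf {X : Set C3} (h : Surf2 X) : Surf X :=
  ⟨h.1, fun N U hN a ha => by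
    obtain ⟨R, O, h1, h2, h3, h4, h5⟩ := h.2 N U hN a ha
    exact ⟨R, h3.contDiffAt (h1.mem_nhds h2), h4, h5⟩⟩

/-- Row PAR: every chart is a parametrisation. -/
def SPAR : Prop := ∀ (X : Set C3) (B : AA), B.Ok X → ∀ c, ∀ q ∈ B.Q c, Par X (B.ch c q) (ball 0 2)

/-- Row CPT: charts centred in a compact set form a compact family. -/
def SCPT : Prop := ∀ (X : Set C3) (B : AA) (F : Fam X) (ty : F.ι → B.C) (ce : F.ι → V),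
  B.Ok X → B.Is F ty ce → F.CPT

/-- Row HTC: uniform transitions between charts with centres of bounded height. -/
def SHTC : Prop := ∀ (X : Set C3) (B : AA), Surf2 X → B.Ok X → ∀ W : ℝ, ∃ r : ℝ, 0 < r ∧
  ∀ c c', ∀ q ∈ B.Q c, ∀ q' ∈ B.Q c', q.1.re ≤ W → q'.1.re ≤ W →
    ∀ y₀ ∈ closedBall (0 : V) 1, ∀ y₀' ∈ closedBall (0 : V) 1, B.ch c q y₀ = B.ch c' q' y₀' →
      HT r (B.ch c q) (B.ch c' q') y₀ y₀'

/-! ### The concrete atlas -/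

variable {n : ℕ}

/-- the chart on the cover -/
def cch (a : Fin n → ℂ) (q y : V) : C3 := cov a (aff (1 / 8 * max 1 q.1.re) (1 / 8) q y)

/-- local inverses of `P` near the centres -/
structure Zeta (a : Fin n → ℂ) (σ ε : ℝ) (ζ : Fin n → ℂ → ℂ) : Prop where
  σ_pos : 0 < σ
  σ_le : σ ≤ 1
  ε_pos : 0 < ε
  hol : ∀ j, ContDiffOn ℂ ∞ (ζ j) (ball 0 (16 * σ ^ 2))
  right : ∀ j, ∀ u ∈ ball (0 : ℂ) (16 * σ ^ 2), Pz a (ζ j u) = u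
  left : ∀ j z, ‖z - a j‖ ≤ ε → ζ j (Pz a z) = z
  sep : ∀ j k, j ≠ k → 2 * ε ≤ ‖a j - a k‖
  near : ∀ z, ‖Pz a z‖ ≤ σ ^ 2 → ∃ j, ‖z - a j‖ ≤ ε / 2

/-- Row ZETA. -/
def SZETA : Prop := ∀ (n : ℕ) (a : Fin n → ℂ), 1 ≤ n → Function.Injective a →
  ∃ σ ε ζ, Zeta a σ ε ζ

/-- Row SURF. -/
def SSURF : Prop := ∀ (n : ℕ) (a : Fin n → ℂ) (σ ε : ℝ) (ζ : Fin n → ℂ → ℂ), Zeta a σ ε ζ →
  Surf2 (Xs a)

/-- the types: the two covers and the small charts -/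
abbrev Ty (n : ℕ) : Type := Bool ⊕ Fin n

/-- the atlas -/
def atl (a : Fin n → ℂ) (σ : ℝ) (ζ : Fin n → ℂ → ℂ) (W Ξ : ℝ) : AA where
  C := Ty n
  Ψ c := match c with
    | .inl false => cov a
    | .inl true => fun q => swap (cov a q)
    | .inr j => fun q => (q.1, q.2, ζ j (q.1 * q.2))
  U c := match c with
    | .inl _ => univ
    | .inr _ => ball 0 (4 * σ)
  Q c := match c with
    | .inl _ => {q | -W ≤ q.1.re ∧ |q.1.im| ≤ 4 ∧ ‖q.2‖ ≤ Ξ}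
    | .inr _ => closedBall 0 σ
  l₁ c := match c with
    | .inl _ => fun q => 1 / 8 * max 1 q.1.re
    | .inr _ => fun _ => σ
  l₂ c := match c with
    | .inl _ => fun _ => 1 / 8
    | .inr _ => fun _ => σ

/-- closed sets containing the supports of the partition of unity -/
def Zs (a : Fin n → ℂ) (σ ε : ℝ) : Ty n → Set C3
  | .inl false => {p | σ ^ 2 / 16 ≤ ‖p.1‖ ^ 2 ∧ ‖p.2.1‖ ^ 2 ≤ 3 * ‖p.1‖ ^ 2}
  | .inl true => {p | σ ^ 2 / 16 ≤ ‖p.2.1‖ ^ 2 ∧ ‖p.1‖ ^ 2 ≤ 3 * ‖p.2.1‖ ^ 2}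
  | .inr j => {p | ‖p.1‖ ^ 2 + ‖p.2.1‖ ^ 2 ≤ σ ^ 2 ∧ ‖p.2.2 - a j‖ ≤ ε}

/-- Row OK: the axioms of the abstract atlas. -/
def SOK : Prop := ∀ (n : ℕ) (a : Fin n → ℂ) (σ ε : ℝ) (ζ : Fin n → ℂ → ℂ) (W Ξ : ℝ), 1 ≤ n →
  Zeta a σ ε ζ → (atl a σ ζ W Ξ).Ok (Xs a)

/-- Row CEN: every point of `Zs c` is the centre of a chart of type `c`. -/
def SCEN : Prop := ∀ (n : ℕ) (a : Fin n → ℂ) (σ ε : ℝ) (ζ : Fin n → ℂ → ℂ), 1 ≤ n →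
  Zeta a σ ε ζ → ∃ W Ξ : ℝ, ∀ c : Ty n, IsClosed (Zs a σ ε c) ∧ ∀ p ∈ Xs a, p ∈ Zs a σ ε c →
    ∃ q ∈ (atl a σ ζ W Ξ).Q c, (atl a σ ζ W Ξ).Ψ c q = p

/-- Row XX: change of chart on one cover. -/
def SXX : Prop := ∀ (n : ℕ) (a : Fin n → ℂ), 1 ≤ n → ∀ q q' : V,
  ∀ y₀ ∈ closedBall (0 : V) 1, ∀ y₀' ∈ closedBall (0 : V) 1, cch a q y₀ = cch a q' y₀' →
    ∃ (d : ℝ) (γ : ℂ), 0 < d ∧ d ≤ 2 ∧ γ ^ n = 1 ∧
      ∀ u : V, cch a q' (y₀' + dg d 1 γ u) = cch a q (y₀ + u)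

/-- Row XY: change of chart between the two covers, far out. -/
def SXY : Prop := ∀ (n : ℕ) (a : Fin n → ℂ) (Ξ : ℝ), 1 ≤ n → ∃ W r : ℝ, 0 < r ∧
  ∀ q q' : V, W ≤ q.1.re → W ≤ q'.1.re → ‖q.2‖ ≤ Ξ → ‖q'.2‖ ≤ Ξ →
    ∀ y₀ ∈ closedBall (0 : V) 1, ∀ y₀' ∈ closedBall (0 : V) 1,
      cch a q y₀ = swap (cch a q' y₀') → HT r (cch a q) (fun y => swap (cch a q' y)) y₀ y₀'

/-- the angle of a smooth step -/
def ang (u : ℝ) : ℝ := Real.pi / 2 * Real.smoothTransition u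

/-- the partition of unity -/
def th (a : Fin n → ℂ) (σ ε : ℝ) : Ty n → C3 → ℝ
  | .inl false => fun p => Real.sin (ang (4 * (‖p.1‖ ^ 2 + ‖p.2.1‖ ^ 2) / (3 * σ ^ 2) - 1 / 3)) *
      Real.cos (ang (2 * (‖p.2.1‖ ^ 2 / (‖p.1‖ ^ 2 + ‖p.2.1‖ ^ 2)) - 1 / 2))
  | .inl true => fun p => Real.sin (ang (4 * (‖p.1‖ ^ 2 + ‖p.2.1‖ ^ 2) / (3 * σ ^ 2) - 1 / 3)) *
      Real.sin (ang (2 * (‖p.2.1‖ ^ 2 / (‖p.1‖ ^ 2 + ‖p.2.1‖ ^ 2)) - 1 / 2))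
  | .inr j => fun p => Real.cos (ang (4 * (‖p.1‖ ^ 2 + ‖p.2.1‖ ^ 2) / (3 * σ ^ 2) - 1 / 3)) *
      Real.cos (ang (4 * ‖p.2.2 - a j‖ ^ 2 / (3 * ε ^ 2) - 1 / 3))

/-- Row TH: smoothness, supports, sum of squares. -/
def STH : Prop := ∀ (n : ℕ) (a : Fin n → ℂ) (σ ε : ℝ) (ζ : Fin n → ℂ → ℂ), 1 ≤ n →
  Zeta a σ ε ζ → (∀ c, ContDiff ℝ ∞ (th a σ ε c)) ∧ (∀ c p, th a σ ε c p ≠ 0 → p ∈ Zs a σ ε c) ∧
    ∀ p ∈ Xs a, ∑ c, th a σ ε c p ^ 2 = 1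

/-- Row FAR: bounds for the partition of unity in the charts far out. -/
def SFAR : Prop := StmtCAU → ∀ (n : ℕ) (a : Fin n → ℂ) (σ ε Ξ : ℝ), 1 ≤ n → 0 < σ → σ ≤ 1 →
  ∀ c : Ty n,
    Bd (fun _ : {q : V // 1 ≤ q.1.re ∧ ‖q.2‖ ≤ Ξ} => ball (0 : V) 1)
      (fun q y => th a σ ε c (cch a q.1 y)) ∧
    Bd (fun _ : {q : V // 1 ≤ q.1.re ∧ ‖q.2‖ ≤ Ξ} => ball (0 : V) 1)
      (fun q y => th a σ ε c (swap (cch a q.1 y)))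

/-- Row NEAR: bounds for a smooth function in the charts of bounded height. -/
def SNEAR : Prop := ∀ (X : Set C3) (B : AA) (g : C3 → ℝ) (W : ℝ), B.Ok X → ContDiff ℝ ∞ g →
  Bd (fun _ : {x : B.C × V // x.2 ∈ B.Q x.1 ∧ x.2.1.re ≤ W} => ball (0 : V) 1)
    (fun x y => g (B.ch x.1.1 x.1.2 y))

/-- the deliverable -/
def SATL : Prop := ∀ (n : ℕ) (a : Fin n → ℂ), 1 ≤ n → Function.Injective a →
  ∃ (Ξ : ℝ) (F : Fam (Xs a)) (A : Atl F), Fam.Shape a F (1 / 8) Ξ ∧ F.CPT ∧ A.Ok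

end

end Pool.Agent.MP_67f0e4_gt.AT
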